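import Pool.Agent.P.MP_8a22ed_gt.GH.St

/-! Annuli and long pairs of rectangles. -/

namespace Pool.Agent.P.MP_8a22ed_gt.GH

open Finset Equiv

namespace Ann

variable {N : ℕ} [NeZero N]

theorem mul_zero_of {B K : Type} [CommRing B] [Ring K] [Algebra B K] (W : Wt N B K) (S : Sg N)
    {x y : St N} {i j k l : ZMod N} (h : Emp x i j → ¬ Emp y k l) :
    TT W S x i j * TT W S y k l = 0 := by
  by_cases h1 : Emp x i j
  · rw [TT.eq_1 W S y, if_neg (h h1), mul_zero]
  · rw [TT, if_neg h1, zero_mul]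

omit [NeZero N] in
theorem succ_ne (h : 2 ≤ N) (u : ZMod N) : u + 1 ≠ u := by
  have : Fact (1 < N) := ⟨h⟩
  simp

theorem ico_succ (h : 2 ≤ N) {u v : ZMod N} (h1 : u ≠ v) (h2 : v ≠ u + 1) : ico u (u + 1) v := by
  have : Fact (1 < N) := ⟨h⟩
  have e1 : (v - u).val ≠ 0 := fun e => h1 (sub_eq_zero.1 ((ZMod.val_eq_zero _).1 e)).symm
  have e2 : (v - u).val ≠ 1 := fun e => h2 (sub_eq_iff_eq_add'.1
    ((eq_iff_val _ _).2 (e.trans (ZMod.val_one N).symm)))
  rw [ico, add_sub_cancel_left, ZMod.val_one]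
  omega

omit [NeZero N] in
theorem eq_of_ico (h : 2 ≤ N) {u p : ZMod N} (h1 : ico u p (u + 1)) : p = u := by
  have : Fact (1 < N) := ⟨h⟩
  rw [ico, add_sub_cancel_left, ZMod.val_one, Nat.lt_one_iff, ZMod.val_eq_zero] at h1
  exact sub_eq_zero.1 h1

theorem ico_or {u v : ZMod N} (h : u ≠ v) (w : ZMod N) : ico u w v ∨ ico v w u := by
  rw [Ne, eq_iff_val] at h
  rw [ico_iff, ico_iff]
  omega

theorem rot {a b c : ZMod N} (h : ioo a b c) :
    a ≠ b ∧ b ≠ c ∧ a ≠ c ∧ ico b c a ∧ ico c a b := by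
  rw [ioo_iff] at h
  simp only [Ne, eq_iff_val, ico_iff]
  omega

theorem flip {a b c : ZMod N} (h2 : b ≠ c) (h3 : a ≠ c) (h : ¬ ico a b c) :
    ico b a c ∧ ico a c b := by
  simp only [Ne, eq_iff_val, ico_iff] at *
  omega

end Ann

open Ann in
theorem st_ann : S_ann := by
  intro N _ B K _ _ _ W S hS hN hμ
  refine ⟨fun x a b c h => ?_, fun x i j => ?_⟩
  · obtain ⟨h1, h2, h3, h4, h5⟩ := rot h
    have f := fun e : Emp x a c => flip (x.injective.ne h2) (x.injective.ne h3) (e.2 b h.1 h.2)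
    have eb : swap a c b = b := swap_apply_of_ne_of_ne h1.symm h2
    refine ⟨mul_zero_of W S fun e e' => e'.2 c h2.symm h4 ?_,
      mul_zero_of W S fun e e' => e'.2 a h3 h5 ?_⟩
    · simpa [eb] using (f e).1
    · simpa [eb] using (f e).2
  rcases eq_or_ne i j with rfl | hij
  · rw [if_neg (succ_ne hN i).symm]
    exact ⟨mul_zero_of W S fun e => absurd rfl e.1, mul_zero_of W S fun e => absurd rfl e.1⟩
  have hx : x i ≠ x j := x.injective.ne hij
  have yi : (x * swap i j) i = x j := by simp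
  have yj : (x * swap i j) j = x i := by simp
  have yp : ∀ p, p ≠ i → p ≠ j → (x * swap i j) p = x p := fun p h1 h2 => by
    rw [Perm.mul_apply, swap_apply_of_ne_of_ne h1 h2]
  constructor
  · by_cases hv : x j = x i + 1
    · obtain ⟨p, hp⟩ := hμ (x i)
      rw [← hv] at hp
      unfold TT
      split_ifs
      · rw [yi, yj, smul_mul_smul_comm, mul_assoc (W.R i _ _), ← mul_assoc (W.L j _ _),
          W.LR j _ _ hx, ← Algebra.smul_def, mul_smul_comm, W.RL i _ _ hx]
        rcases eq_or_ne p i with rfl | h1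
        · simp [hp]
        rcases eq_or_ne p j with rfl | h2
        · simp [hp]
        rcases ico_or hij p with h | h
        · rw [prod_eq_zero (i := p) (mem_filter.2 ⟨mem_univ _, h1, h⟩) hp]; simp
        · rw [prod_eq_zero (s := univ.filter fun p => ioo j p i) (i := p)
            (mem_filter.2 ⟨mem_univ _, h2, h⟩) hp]; simp
      all_goals simp
    · refine mul_zero_of W S fun e e' => ?_
      obtain ⟨p, hp⟩ := x.surjective (x i + 1)
      have h1 : p ≠ i := fun h => succ_ne hN _ (hp.symm.trans (congrArg x h))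
      have h2 : p ≠ j := fun h => hv ((congrArg x h).symm.trans hp)
      have h3 := ico_succ hN hx hv
      rcases ico_or hij p with h | h
      · exact e.2 p h1 h (hp ▸ h3)
      · exact e'.2 p h2 h (by rwa [yi, yj, yp p h1 h2, hp])
  · split_ifs with h
    · subst h
      have em : ∀ y : St N, Emp y i (i + 1) := fun y =>
        ⟨hij, fun p h1 h2 => absurd (eq_of_ico hN h2) h1⟩
      have e0 : univ.filter (fun p => ioo i p (i + 1)) = ∅ :=
        filter_eq_empty_iff.2 fun p _ h => h.1 (eq_of_ico hN h.2)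
      rw [TT, TT, if_pos (em _), if_pos (em _), e0, prod_empty, prod_empty, yi, yj,
        smul_mul_smul_comm, mul_one, mul_one, ← Int.cast_mul, hS.vert x _ _ hij]
      simp
    · refine mul_zero_of W S fun e e' => ?_
      have h1 := succ_ne hN i
      have h2 := ico_succ hN hij h
      rcases ico_or hx (x (i + 1)) with h3 | h3
      · exact e.2 _ h1 h2 h3
      · exact e'.2 _ h1 h2 (by rwa [yi, yj, yp _ h1 (Ne.symm h)])

end Pool.Agent.P.MP_8a22ed_gt.GH
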