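import Pool.Agent.P.MP_8a22ed_gt.GH.St

/-! The square of the weighted rectangle count vanishes. -/

namespace Pool.Agent.P.MP_8a22ed_gt.GH

open Equiv Finset

namespace Core

variable {N : ℕ} [NeZero N] {K : Type} [Ring K]

theorem split (f : K) (i j k l : ZMod N) (h1 : i = j → f = 0) (h2 : k = l → f = 0) :
    f = (if i ≠ j ∧ i ≠ k ∧ i ≠ l ∧ j ≠ k ∧ j ≠ l ∧ k ≠ l then f else 0) +
      (if k = i then if ioo i j l then f else 0 else 0) +
      (if k = i then if ioo i l j then f else 0 else 0) +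
      (if k = j then if ioo i j l then f else 0 else 0) +
      (if k = j then if ioo i l j then f else 0 else 0) +
      (if l = i then if ioo k i j then f else 0 else 0) +
      (if l = i then if ioo i k j then f else 0 else 0) +
      (if l = j then if ioo k i j then f else 0 else 0) +
      (if l = j then if ioo i k j then f else 0 else 0) +
      (if k = i then if l = j then f else 0 else 0) +
      (if k = j then if l = i then f else 0 else 0) := by
  by_cases a : i = j
  · simp [h1 a]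
  by_cases b : k = l
  · simp [h2 b]
  have n1 : ∀ u v : ZMod N, ¬ ioo u u v := fun u v => by rw [ioo_iff]; omega
  have n2 : ∀ u v : ZMod N, ¬ ioo u v v := fun u v => by rw [ioo_iff]; omega
  have n3 : ∀ u v : ZMod N, ¬ ioo u v u := fun u v => by rw [ioo_iff]; omega
  have n4 : ∀ u v w : ZMod N, u ≠ v → u ≠ w → v ≠ w → (ioo u w v ↔ ¬ ioo u v w) :=
    fun u v w => by simp only [ioo_iff, Ne, eq_iff_val]; omega
  have n5 : ∀ u v w : ZMod N, ioo w u v ↔ ioo u v w := fun u v w => by
    simp only [ioo_iff]; omega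
  by_cases c : k = i
  · subst c
    by_cases d : l = j
    · subst d; simp [a, Ne.symm a, n1, n2]
    · by_cases e : ioo k j l <;> simp [a, Ne.symm b, d, e, n4 k j l a b (Ne.symm d)]
  by_cases d : k = j
  · subst d
    by_cases e : l = i
    · subst e; simp [a, Ne.symm a, n1, n2, n3]
    · by_cases g : ioo i k l <;> simp [c, Ne.symm b, e, g, n4 i k l a (Ne.symm e) b]
  by_cases e : l = i
  · subst e
    by_cases g : ioo l j k <;> simp [a, c, d, g, n5 l j k, n4 l j k a (Ne.symm c) (Ne.symm d)]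
  by_cases g : l = j
  · subst g
    by_cases u : ioo i l k <;> simp [c, d, e, u, n5 i l k, n4 i l k a (Ne.symm c) (Ne.symm d)]
  simp [a, b, c, d, e, g, Ne.symm c, Ne.symm d, Ne.symm e, Ne.symm g]

theorem hk (g : ZMod N → ZMod N → K) (a : ZMod N) :
    ∑ k, ∑ l, (if k = a then g k l else 0) = ∑ l, g a l := by
  rw [sum_comm]; simp

theorem r1 (g : ZMod N → ZMod N → ZMod N → K) :
    ∑ i, ∑ j, ∑ k, g i j k = ∑ i, ∑ k, ∑ j, g i j k := sum_congr rfl fun _ _ => sum_comm

theorem r2 (g : ZMod N → ZMod N → ZMod N → K) :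
    ∑ i, ∑ j, ∑ k, g i j k = ∑ k, ∑ i, ∑ j, g i j k := by rw [r1, sum_comm]

theorem total (f : ZMod N → ZMod N → ZMod N → ZMod N → K) (h2 : ∀ k : K, k + k = 0 → k = 0)
    (z1 : ∀ i k l, f i i k l = 0) (z2 : ∀ i j k, f i j k k = 0)
    (h4 : ∀ i j k l, i ≠ j → i ≠ k → i ≠ l → j ≠ k → j ≠ l → k ≠ l → f i j k l + f k l i j = 0)
    (h3 : ∀ a b c, ioo a b c → f a b a c + f a c a b + f a b b c + f a c c b + f b c a b +
      f a c b a + f b c a c + f a c b c = 0)
    (hv : ∑ i, ∑ j, f i j i j = 0) (hh : ∀ i j, f i j j i = 0) :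
    ∑ i, ∑ j, ∑ k, ∑ l, f i j k l = 0 := by
  have e1 : ∑ i, ∑ j, ∑ k, ∑ l,
      (if i ≠ j ∧ i ≠ k ∧ i ≠ l ∧ j ≠ k ∧ j ≠ l ∧ k ≠ l then f i j k l else 0) = 0 := by
    apply h2
    set g : ZMod N → ZMod N → ZMod N → ZMod N → K := fun i j k l =>
      if i ≠ j ∧ i ≠ k ∧ i ≠ l ∧ j ≠ k ∧ j ≠ l ∧ k ≠ l then f i j k l else 0 with hg
    have e0 : ∑ i, ∑ j, ∑ k, ∑ l, g i j k l = ∑ i, ∑ j, ∑ k, ∑ l, g k l i j := by
      rw [r2 fun i j k => ∑ l, g i j k l]
      exact sum_congr rfl fun k _ => r2 fun i j l => g i j k l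
    change ∑ i, ∑ j, ∑ k, ∑ l, g i j k l + ∑ i, ∑ j, ∑ k, ∑ l, g i j k l = 0
    nth_rw 2 [e0]
    simp only [← sum_add_distrib]
    refine sum_eq_zero fun i _ => sum_eq_zero fun j _ => sum_eq_zero fun k _ =>
      sum_eq_zero fun l _ => ?_
    simp only [hg]
    by_cases h : i ≠ j ∧ i ≠ k ∧ i ≠ l ∧ j ≠ k ∧ j ≠ l ∧ k ≠ l
    · obtain ⟨a, b, c, d, e, f⟩ := h
      rw [if_pos ⟨a, b, c, d, e, f⟩, if_pos ⟨f, b.symm, d.symm, c.symm, e.symm, a⟩]
      exact h4 i j k l a b c d e f
    · rw [if_neg h, if_neg fun ⟨f, b, d, c, e, a⟩ => h ⟨a, b.symm, c.symm, d.symm, e.symm, f⟩,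
        add_zero]
  rw [sum_congr rfl fun i _ => sum_congr rfl fun j _ => sum_congr rfl fun k _ =>
    sum_congr rfl fun l _ => split (f i j k l) i j k l (fun h => h ▸ z1 _ _ _)
      (fun h => h ▸ z2 _ _ _)]
  simp only [sum_add_distrib, hk, e1, sum_ite_eq', mem_univ, if_true, hv, hh, zero_add, add_zero]
  rw [r1 fun i j l => if ioo i l j then f i j i l else 0,
    r1 fun i j l => if ioo i l j then f i j j l else 0,
    r2 fun i j k => if ioo k i j then f i j k i else 0,
    r1 fun i j k => if ioo i k j then f i j k i else 0,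
    r2 fun i j k => if ioo k i j then f i j k j else 0,
    r1 fun i j k => if ioo i k j then f i j k j else 0]
  simp only [← sum_add_distrib]
  refine sum_eq_zero fun a _ => sum_eq_zero fun b _ => sum_eq_zero fun c _ => ?_
  split_ifs with h
  · exact h3 a b c h
  · simp

end Core

theorem st_core (h1 : S_four) (h2 : S_three1) (h3 : S_three2) (h4 : S_ann) : S_core := by
  intro N _ B K _ _ _ W S hS hN hK hH hV
  obtain ⟨a1, a2⟩ := h4 N B K W S hS hN hH
  ext x y
  have e : (DD W S * DD W S) x y = ∑ i, ∑ j, ∑ k, ∑ l, if y = x * swap i j * swap k l then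
      TT W S x i j * TT W S (x * swap i j) k l else 0 := by
    simp only [Matrix.mul_apply, DD, sum_mul, ite_mul, zero_mul]
    rw [sum_comm]
    refine sum_congr rfl fun i _ => ?_
    rw [sum_comm]
    refine sum_congr rfl fun j _ => ?_
    simp [mul_sum]
  rw [e, Matrix.zero_apply]
  refine Core.total _ hK (fun i k l => by simp [TT, Emp]) (fun i j k => by simp [TT, Emp])
    (fun i j k l a b c d e f => ?_) (fun a b c h => ?_) ?_ (fun i j => by simp [(a2 x i j).1])
  · have : x * swap k l * swap i j = x * swap i j * swap k l := by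
      rw [mul_assoc, mul_assoc, (Perm.disjoint_swap_swap (by simp [a, b.symm, c.symm, d.symm, e.symm, f])).commute]
    rw [this]
    split_ifs
    · exact h1 N B K W S hS x i j k l a b c d e f
    · simp
  · have ab : a ≠ b := by rw [ioo_iff] at h; rw [Ne, eq_iff_val]; omega
    have ac : a ≠ c := by rw [ioo_iff] at h; rw [Ne, eq_iff_val]; omega
    have bc : b ≠ c := by rw [ioo_iff] at h; rw [Ne, eq_iff_val]; omega
    have cj : ∀ i j k l : ZMod N,
        x * swap i j * swap k l = x * swap (swap i j k) (swap i j l) * swap i j := by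
      intro i j k l
      rw [mul_assoc, mul_assoc, swap_apply_apply]; simp
    have p1 := cj b c a c
    have p2 := cj a b b c
    have p3 := cj a b a c
    have p4 := cj b c a b
    rw [swap_apply_of_ne_of_ne ab ac, swap_apply_right] at p1
    rw [swap_apply_of_ne_of_ne ac.symm bc.symm, swap_apply_right] at p2
    rw [swap_apply_of_ne_of_ne ac.symm bc.symm, swap_apply_left] at p3
    rw [swap_apply_of_ne_of_ne ab ac, swap_apply_left] at p4
    have t1 := h2 N B K W S hS x a b c h
    have t2 := h3 N B K W S hS x a b c h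
    simp only [(a1 x a b c h).1, (a1 x a b c h).2, ite_self, add_zero, p1, p3, ← p2, ← p4]
    split_ifs
    · refine Eq.trans ?_ ((congrArg₂ (· + ·) t1 t2).trans (add_zero 0)); abel
    · refine Eq.trans ?_ t2; abel
    · refine Eq.trans ?_ t1; abel
    · simp
  · simp only [(a2 x _ _).2, mul_assoc x, swap_mul_self, mul_one]
    split_ifs
    · simp [hV x]
    · simp

end Pool.Agent.P.MP_8a22ed_gt.GH
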