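import Pool.Agent.P.MP_8a22ed_gt.Defs

/-! Toroidal grid diagrams, the minus version of grid homology over `ℚ`, periodic grids. -/

namespace Pool.Agent.P.MP_8a22ed_gt.GH

open Finset Matrix Equiv Polynomial LaurentPolynomial

/-- `v` lies in the cyclic interval `[u, w)`. -/
def ico {N : ℕ} (u v w : ZMod N) : Prop := (v - u).val < (w - u).val

instance {N : ℕ} (u v w : ZMod N) : Decidable (ico u v w) :=
  inferInstanceAs (Decidable (_ < _))

variable {N : ℕ} [NeZero N]

/-- The vector `e i - e j` in the Clifford algebra of the form `-(1/2) ∑ x i ^ 2`. -/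
noncomputable def tau (i j : ZMod N) :
    CliffordAlgebra (QuadraticMap.weightedSumSquares ℚ fun _ : ZMod N => (-1 / 2 : ℚ)) :=
  CliffordAlgebra.ι _ (Pi.single i 1 - Pi.single j 1)

/-- The signs `S` come from a section `ρ` of the spin extension of the symmetric group. -/
def IsSign (S : Perm (ZMod N) → ZMod N → ZMod N → ℤ) : Prop :=
  ∃ ρ : Perm (ZMod N) → _, ρ 1 = 1 ∧ ∀ x i j, i ≠ j →
    (S x i j = 1 ∨ S x i j = -1) ∧ ρ x * tau i j = S x i j • ρ (x * swap i j)

/-- The weight of the column `c` between the heights `u` and `v`. -/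
noncomputable def cw (X O : ZMod N → ZMod N) (c u v : ZMod N) : MvPolynomial (ZMod N) ℚ :=
  if ico u (X c) v then 0 else if ico u (O c) v then MvPolynomial.X (O c) else 1

/-- The rectangle with corners `(i, x i)` and `(j, x j)` is empty. -/
def Emp (x : Perm (ZMod N)) (i j : ZMod N) : Prop :=
  i ≠ j ∧ ∀ p, p ≠ i → ico i p j → ¬ ico (x i) (x p) (x j)

instance (x : Perm (ZMod N)) (i j : ZMod N) : Decidable (Emp x i j) :=
  inferInstanceAs (Decidable (_ ∧ _))

/-- The differential of the minus complex. -/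
noncomputable def bd (S : Perm (ZMod N) → ZMod N → ZMod N → ℤ) (X O : ZMod N → ZMod N) :
    Matrix (Perm (ZMod N)) (Perm (ZMod N)) (MvPolynomial (ZMod N) ℚ) := fun x y =>
  ∑ i, ∑ j, if y = x * swap i j ∧ Emp x i j then
    S x i j • ∏ c with ico i c j, cw X O c (x i) (x j) else 0

/-- The winding number of the link round the lattice point `(p, r)`. -/
def wn (X O : ZMod N → ZMod N) (p r : ZMod N) : ℤ :=
  ∑ c with c.val < p.val,
    ((if (X c).val < r.val then 1 else 0) - (if (O c).val < r.val then 1 else 0))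

/-- `v` is homogeneous of degree `a` when the generator `x` has degree `A x` and every variable
has degree `-1`. -/
def InGr {I σ : Type} (A : I → ℤ) (a : ℤ) (v : I → MvPolynomial σ ℚ) : Prop :=
  ∀ x, ∀ m ∈ (v x).support, A x - m.degree = a

/-- In every degree the homology of `d` has dimension at most one. -/
def Thin {I σ : Type} [Fintype I] (A : I → ℤ) (d : Matrix I I (MvPolynomial σ ℚ)) : Prop :=
  ∀ a u v, InGr A a u → InGr A a v → u ᵥ* d = 0 → v ᵥ* d = 0 →
    ∃ (α β : ℚ) (w : I → MvPolynomial σ ℚ),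
      (α ≠ 0 ∨ β ≠ 0) ∧ InGr A a w ∧ w ᵥ* d = α • u + β • v

/-- The Alexander grading, up to a constant. -/
def gr (X O : ZMod N → ZMod N) (x : Perm (ZMod N)) : ℤ := ∑ p, wn X O p (x p)

/-- `Δ` is the normalised Alexander polynomial of the knot given by the grid. -/
def IsAlex (X O : ZMod N → ZMod N) (Δ : ℤ[X]) : Prop :=
  Δ.coeff 0 ≠ 0 ∧ Δ.eval 1 = 1 ∧ ∃ k δ : ℤ, (δ = 1 ∨ δ = -1) ∧
    (Matrix.of fun p r => (T (wn X O p r) : ℤ[T;T⁻¹])).det =
      (δ : ℤ[T;T⁻¹]) * T k * toLaurent ((1 - Polynomial.X) ^ (N - 1) * Δ)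

/-- The markings of the `q`-fold periodic grid: `q` columns for every column `i` of the quotient,
with markings at the heights `a i + k n`. -/
def up (N q : ℕ) {n : ℕ} (a : ZMod n → ℤ) (c : ZMod N) : ZMod N :=
  (a (c.val / q : ℕ) + (c.val % q : ℕ) * n : ℤ)

end Pool.Agent.P.MP_8a22ed_gt.GH
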