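import Pool.Agent.P.MP_8a22ed_gt.GH.St

/-! The grid after all exchanges of columns. -/

namespace Pool.Agent.P.MP_8a22ed_gt.GH

open Finset Equiv

namespace End

theorem neg_val {N : ℕ} [NeZero N] {w : ℤ} (h0 : 0 < w) (h1 : w ≤ N) {z : ZMod N}
    (hz : z = -(w : ZMod N)) : (z.val : ℤ) = N - w := by
  have : z = ((N - w : ℤ) : ZMod N) := by rw [hz]; simp
  rw [this, ZMod.val_intCast, Int.emod_eq_of_lt (by omega) (by omega)]

theorem dm {q g k v : ℕ} (hk : k < q) (h : v = g * q + k) : v / q = g ∧ v % q = k := by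
  subst h
  rw [mul_comm, Nat.mul_add_div (by omega), Nat.mul_add_mod, Nat.div_eq_of_lt hk,
    Nat.mod_eq_of_lt hk]
  exact ⟨rfl, rfl⟩

theorem pw_zero {N n : ℕ} [NeZero N] {a b j w : ℤ} (hab : |a - b| < n) (h0 : 0 < w)
    (h1 : w + n ≤ N + 1) (hw : (w : ZMod N) = (j + 1) * n + 1) :
    pw (a + j * n) (b + j * n) ((min a b - n : ℤ) : ZMod N) = 0 := by
  rw [pw, if_neg]
  rw [neg_val h0 (by have := abs_nonneg (a - b); omega) (by
    rw [min_add_add_right, hw]; push_cast; ring), add_sub_add_right_eq_sub]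
  omega

end End

open End in
theorem st_end (h1 : S_pw) (h2 : S_pi) : S_end := by
  intro N n q _ _ D
  obtain ⟨p1, -, p3, -⟩ := h2 N n q D.hN D.hq
  have hq := D.hq
  have hN : (N : ℤ) = q * n := by rw [D.hN]; push_cast; ring
  have h0 : (q : ZMod N) * n = 0 := by rw [← Nat.cast_mul, ← D.hN, ZMod.natCast_self]
  have key : ∀ c, (pp N q (n * (q - 1)) c).val / q = c.val / q ∧ ∃ e : ℤ,
      (((pp N q (n * (q - 1)) c).val % q : ℕ) : ℤ) = (c.val % q : ℕ) - 1 + e * q := fun c => by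
    have e1 := Nat.div_add_mod' c.val q
    have e2 := Nat.mod_lt c.val (show 0 < q by omega)
    have e3 := p3 c
    split_ifs at e3 with h
    · obtain ⟨a1, a2⟩ := dm (q := q) (g := c.val / q) (k := q - 1) (by omega) (e3.trans (by omega))
      exact ⟨a1, 1, by omega⟩
    · obtain ⟨a1, a2⟩ := dm (q := q) (g := c.val / q) (k := c.val % q - 1) (by omega)
        (e3.trans (by omega))
      exact ⟨a1, 0, by omega⟩
  have hup : ∀ (a : ZMod n → ℤ) c, up N q a (pp N q (n * (q - 1)) c) = up N q a c - n :=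
    fun a c => by
      obtain ⟨a1, e, a2⟩ := key c
      rw [up, up, a1, a2]
      push_cast
      linear_combination (e : ZMod N) * h0
  refine ⟨hup _, hup _, fun c r => ?_, fun c => ?_, fun s hs => ?_⟩
  · obtain ⟨a1, e, a2⟩ := key c
    rw [PD.W, PD.W, a1, a2, ← (h1.2.1 N _ _ ((1 - e * q) * n) r).2]
    congr 1
    · ring
    · ring
    · push_cast
      linear_combination -(e : ZMod N) * h0
  · obtain ⟨-, e, a2⟩ := key c
    have := congrArg (Int.cast : ℤ → ZMod q) a2
    simpa using this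
  · obtain ⟨-, k1, k2, -, -, v1, v2, v3⟩ := p1 s hs
    obtain ⟨a1, a2⟩ := dm (q := q) (g := grp q s) (k := kk q s - 1) (by omega) (v1.trans (by omega))
    obtain ⟨b1, b2⟩ := dm (q := q) (k := q - 1) (by omega) v3
    have hx := D.hxo (grp q s : ℕ)
    have c1 : ((kk q s - 1 : ℕ) : ℤ) = kk q s - 1 := by omega
    have c2 : ((q - 1 : ℕ) : ℤ) = q - 1 := by omega
    have c3 : ((kk q s : ℤ) + 1) * n ≤ q * n := by gcongr; omega
    have c4 : (0 : ℤ) ≤ kk q s * n := by positivity
    rw [v2, PD.W, PD.W, PD.X, up, up, a1, a2, b1, b2, PD.hh, c1, c2]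
    refine ⟨pw_zero (w := kk q s * n + 1) hx (by omega) (by linarith) (by push_cast; ring),
      pw_zero (w := 1) hx one_pos (by linarith) (by push_cast; linear_combination -h0), ?_⟩
    obtain ⟨d, d0, d1, hd⟩ : ∃ d : ℤ, 0 ≤ d ∧ d < n ∧
        min (D.x (grp q s : ℕ)) (D.o (grp q s : ℕ)) = D.x (grp q s : ℕ) - d :=
      ⟨_, sub_nonneg.2 (min_le_left _ _), by rw [abs_lt] at hx; omega, (sub_sub_cancel _ _).symm⟩
    rw [hd]
    zify
    rw [neg_val (w := d + 1) (by omega) (by linarith) (by push_cast; linear_combination -h0),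
      neg_val (w := d + kk q s * n + 1) (by omega) (by linarith) (by push_cast; ring)]
    ring

end Pool.Agent.P.MP_8a22ed_gt.GH
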