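import Pool.Agent.P.MP_8a22ed_gt.GH.St

/-! Coordinates on `ZMod (q * n)`: heights `a + k n` and places `i q + k`. -/

namespace Pool.Agent.P.MP_8a22ed_gt.GH

theorem comb_lt {a k n q : ℕ} (ha : a < n) (hk : k < q) : a + k * n < q * n :=
  calc a + k * n < n + k * n := by omega
    _ = (k + 1) * n := by ring
    _ ≤ q * n := Nat.mul_le_mul_right n hk

/-- The pair `(a, k)` goes to `a + k n`. -/
def rowE {N n q : ℕ} [NeZero N] [NeZero n] [NeZero q] (hN : N = q * n) :
    ZMod n × ZMod q ≃ ZMod N where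
  toFun a := (a.1.val + a.2.val * n : ℕ)
  invFun r := ((r.val : ZMod n), (r.val / n : ℕ))
  left_inv := by
    rintro ⟨a, k⟩
    have h := comb_lt (ZMod.val_lt a) (ZMod.val_lt k)
    have hn := Nat.pos_of_ne_zero (NeZero.ne n)
    simp only
    rw [ZMod.val_cast_of_lt (hN ▸ h), Nat.add_mul_div_right _ _ hn,
      Nat.div_eq_of_lt (ZMod.val_lt a)]
    simp
  right_inv := by
    intro r
    have hn := Nat.pos_of_ne_zero (NeZero.ne n)
    have h : r.val / n < q := Nat.div_lt_of_lt_mul (by rw [mul_comm, ← hN]; exact r.val_lt)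
    simp only
    rw [ZMod.val_natCast, ZMod.val_cast_of_lt h, Nat.mod_add_div', ZMod.natCast_zmod_val]

variable {N n q : ℕ} [NeZero N] [NeZero n] [NeZero q] (hN : N = q * n)

theorem rowE_apply (a : ZMod n) (k : ZMod q) :
    rowE hN (a, k) = ((a.val + k.val * n : ℕ) : ZMod N) := rfl

theorem rowE_val (a : ZMod n) (k : ZMod q) : (rowE hN (a, k)).val = a.val + k.val * n :=
  ZMod.val_cast_of_lt (hN ▸ comb_lt (ZMod.val_lt a) (ZMod.val_lt k))

theorem rowE_symm (r : ZMod N) :
    (rowE hN).symm r = ((r.val : ZMod n), ((r.val / n : ℕ) : ZMod q)) := rfl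

theorem rowE_cls (a : ZMod n) (k : ZMod q) : ((rowE hN (a, k)).val : ZMod n) = a :=
  congrArg Prod.fst ((rowE hN).left_inv (a, k))

omit [NeZero N] [NeZero n] in
include hN in
theorem cast_val_mul (k : ℤ) : (((k : ZMod q).val : ℕ) : ZMod N) * n = k * n := by
  obtain ⟨c, hc⟩ : (q : ℤ) ∣ ((k : ZMod q).val : ℤ) - k := by
    rw [← ZMod.intCast_zmod_eq_zero_iff_dvd]; simp
  have h0 : (q : ZMod N) * n = 0 := by rw [← Nat.cast_mul, ← hN, ZMod.natCast_self]
  have h1 := congrArg (Int.cast : ℤ → ZMod N) hc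
  push_cast at h1
  linear_combination (n : ZMod N) * h1 + (c : ZMod N) * h0

theorem rowE_add (a : ZMod n) (k : ZMod q) (j : ℤ) :
    rowE hN (a, k + j) = rowE hN (a, k) + j * n := by
  have h := cast_val_mul hN ((k.val : ℤ) + j)
  simp only [Int.cast_add, Int.cast_natCast, ZMod.natCast_zmod_val] at h
  rw [rowE_apply, rowE_apply]
  push_cast
  rw [h]; ring

theorem rowE_succ (a : ZMod n) (k : ZMod q) : rowE hN (a, k + 1) = rowE hN (a, k) + n := by
  simpa using rowE_add hN a k 1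

/-- The pair `(i, k)` goes to `i q + k`. -/
def colE : ZMod n × ZMod q ≃ ZMod N :=
  (Equiv.prodComm _ _).trans (rowE (hN.trans (mul_comm q n)))

theorem colE_val (i : ZMod n) (k : ZMod q) : (colE hN (i, k)).val = k.val + i.val * q :=
  rowE_val (hN.trans (mul_comm q n)) k i

theorem colE_div (i : ZMod n) (k : ZMod q) : (colE hN (i, k)).val / q = i.val := by
  rw [colE_val, Nat.add_mul_div_right _ _ (Nat.pos_of_ne_zero (NeZero.ne q)),
    Nat.div_eq_of_lt (ZMod.val_lt k), zero_add]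

theorem colE_mod (i : ZMod n) (k : ZMod q) : (colE hN (i, k)).val % q = k.val := by
  rw [colE_val, Nat.add_mul_mod_self_right, Nat.mod_eq_of_lt (ZMod.val_lt k)]

theorem colE_symm (c : ZMod N) :
    (colE hN).symm c = (((c.val / q : ℕ) : ZMod n), (c.val : ZMod q)) := rfl

end Pool.Agent.P.MP_8a22ed_gt.GH
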