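import Pool.Agent.P.MP_8a22ed_gt.GH.EtaG

/-! The sign of the shift map and the signs of the fixed states. -/

namespace Pool.Agent.P.MP_8a22ed_gt.GH

open Equiv Equiv.Perm Finset

namespace Eta

theorem lift_of (h : S_spin) {N : ℕ} [NeZero N] {S : Sg N} {ρ : St N → Cf N} (hρ : Spin S ρ) :
    Lift ρ := by
  obtain ⟨-, h2, h3, h4⟩ := (h N).2 S ρ hρ
  refine ⟨hρ.1, h2, h3, fun x y hd => ?_⟩
  have h₁ : ∀ z, x (y z) = y z ↔ x z = z := by
    intro z
    by_cases hz : y z = z
    · rw [hz]
    · refine iff_of_true ((hd (y z)).resolve_right fun h => hz (y.injective h))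
        ((hd z).resolve_right hz)
  rw [← ofSubtype_subtypePerm (p := fun z => x z = z) h₁ fun z hz => (hd z).resolve_right hz]
  generalize y.subtypePerm (p := fun z => x z = z) h₁ = y'
  induction y' using swap_induction_on' with
  | one => simp [hρ.1]
  | mul_swap f a b hab ih =>
    have hab' : (a : ZMod N) ≠ b := fun h => hab (Subtype.ext h)
    obtain ⟨s1, s2⟩ := hρ.2 (ofSubtype f) a b hab'
    have s3 : ρ (ofSubtype f * swap (a : ZMod N) b) =
        S (ofSubtype f) a b • (ρ (ofSubtype f) * tau (a : ZMod N) b) := by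
      rw [s2, smul_smul]; rcases s1 with u | u <;> simp [u]
    have s4 := h4 x a b
    rw [a.2, b.2] at s4
    rw [map_mul, ofSubtype_swap_eq, s3, mul_smul_comm, ← mul_assoc, ih, smul_mul_assoc,
      mul_assoc, s4, Perm.sign_mul, sign_swap hab']
    simp only [mul_smul_comm, smul_mul_assoc, smul_smul, mul_assoc]
    congr 1
    rcases Int.units_eq_one_or (sign x) with u | u <;>
      rcases Int.units_eq_one_or (sign (ofSubtype f)) with v | v <;> simp [u, v]

theorem Lift.comp {ι κ A : Type} [Fintype ι] [DecidableEq ι] [Fintype κ] [DecidableEq κ] [Ring A]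
    {ρ : Perm κ → A} (h : Lift ρ) (e : ι ≃ κ) : Lift fun θ => ρ (e.permCongrHom θ) := by
  refine ⟨by rw [map_one, h.one], fun x => h.uniq _, fun x y => by rw [map_mul]; exact h.mul _ _,
    fun x y hd => ?_⟩
  have := h.disj (e.permCongr x) (e.permCongr y) fun z => by
    rcases hd (e.symm z) with u | u <;> simp [u]
  rwa [sign_permCongr, sign_permCongr] at this

theorem sign_B_one {α : Type} [Fintype α] [DecidableEq α] {q : ℕ} [NeZero q] :
    sign (B (1 : α → ZMod q)) = (-1) ^ (Fintype.card α * (q - 1)) := by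
  have := sign_c (q := q) (α := Unit) ()
  rw [B, sign_prodCongrRight] at this ⊢
  simp only [univ_unique, prod_singleton, Pi.single_eq_same] at this
  simp only [Pi.one_apply, this, prod_const, card_univ]
  rw [mul_comm, pow_mul]

/-- The product of the vectors of the standard path. -/
noncomputable def wt (N q : ℕ) [NeZero N] : ℕ → Cf N
  | 0 => 1
  | s + 1 => wt N q s * tau (ci N q s - 1) (ci N q s)

theorem rho_wt {N : ℕ} [NeZero N] (q : ℕ) (hN : 2 ≤ N) {S : Sg N} {ρ : St N → Cf N}
    (hρ : Spin S ρ) (x : St N) (m : ℕ) : ρ x * wt N q m =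
      (∏ s ∈ range m, S (x * pp N q s) (ci N q s - 1) (ci N q s)) • ρ (x * pp N q m) ∧
    (∏ s ∈ range m, S (x * pp N q s) (ci N q s - 1) (ci N q s) = 1 ∨
      ∏ s ∈ range m, S (x * pp N q s) (ci N q s - 1) (ci N q s) = -1) := by
  have : Fact (1 < N) := ⟨hN⟩
  induction m with
  | zero => simp [wt, pp]
  | succ m ih =>
    obtain ⟨s1, s2⟩ := hρ.2 (x * pp N q m) (ci N q m - 1) (ci N q m) (by simp)
    refine ⟨?_, ?_⟩
    · rw [wt, ← mul_assoc, ih.1, smul_mul_assoc, s2, smul_smul, prod_range_succ, pp, mul_assoc]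
      rfl
    · rw [prod_range_succ]
      rcases ih.2 with u | u <;> rcases s1 with v | v <;> simp [u, v]

end Eta

open Eta in
theorem st_eta (h : S_spin) : S_eta := by
  intro N n q _ _ hN hq S hS
  obtain ⟨ρ, hρ⟩ : ∃ ρ, Spin S ρ := hS
  have : NeZero q := ⟨by omega⟩
  have hN2 : 2 ≤ N := hN ▸ le_trans hq (Nat.le_mul_of_pos_right q (Nat.pos_of_ne_zero (NeZero.ne n)))
  have hL := lift_of h hρ
  choose η h1 h2 using hL.mul (sh N n)
  set m := n * (q - 1) with hm
  set c : St N → ℤ := fun x => (Perm.sign x : ℤ) ^ (m + 1) *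
    (∏ s ∈ range m, S (x * pp N q s) (ci N q s - 1) (ci N q s)) * η (x * pp N q m) with hc
  have key : ∀ (x x' : St N) (π π' : St n), sh N n * (x * pp N q m) = x →
      sh N n * (x' * pp N q m) = x' → (∀ i : ZMod n, ((x (i.val * q : ℕ)).val : ZMod n) = π i) →
      (∀ i : ZMod n, ((x' (i.val * q : ℕ)).val : ZMod n) = π' i) →
      c x' = (Perm.sign (π' * π⁻¹) : ℤ) * c x := by
    intro x x' π π' a a' b b'
    obtain ⟨θ, rfl⟩ : ∃ θ, x' = (rowE hN).permCongrHom θ * x :=
      ⟨(rowE hN).permCongrHom.symm (x' * x⁻¹), by rw [MulEquiv.apply_symm_apply]; simp⟩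
    have e1 : (rowE hN).permCongrHom (B 1) = sh N n := by
      ext r
      obtain ⟨⟨a, k⟩, rfl⟩ := (rowE hN).surjective r
      simp [sh, rowE_succ]
    have e2 : B 1 * θ = θ * B 1 := by
      apply (rowE hN).permCongrHom.injective
      rw [map_mul, map_mul, e1]
      apply mul_right_cancel (b := x * pp N q m)
      rw [mul_assoc, ← mul_assoc _ x, a', mul_assoc, a]
    obtain ⟨e, k1, k2⟩ := P_all (hL.comp (rowE hN)) (m := m)
      (by rw [sign_B_one, ZMod.card]) θ (π' * π⁻¹) e2 fun a => by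
        have u := b (π⁻¹ a)
        have u' := b' (π⁻¹ a)
        obtain ⟨⟨a1, k⟩, hk⟩ := (rowE hN).surjective (x ((π⁻¹ a).val * q : ℕ))
        rw [mul_apply, ← hk] at u'
        rw [← hk, rowE_cls] at u
        refine ⟨k, ?_⟩
        rw [mul_apply, ← u', show a = a1 by simpa using u.symm]
        simp only [permCongrHom_coe, permCongr_apply, symm_apply_apply]
        exact (rowE_cls hN _ _).symm
    simp only [K, e1] at k1
    have sg : sign ((rowE hN).permCongrHom θ) = sign θ := sign_permCongr _ _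
    generalize (rowE hN).permCongrHom θ = T at *
    obtain ⟨u, -, hu⟩ := hL.mul' T x
    have w := (rho_wt q hN2 hρ x m).1
    have w' := (rho_wt q hN2 hρ (T * x) m).1
    simp only [hc]
    generalize (∏ s ∈ range m, S (x * pp N q s) (ci N q s - 1) (ci N q s)) = p at *
    generalize (∏ s ∈ range m, S (T * x * pp N q s) (ci N q s - 1) (ci N q s)) = p' at *
    have z : ρ (sh N n) * (ρ x * wt N q m) = (p * η (x * pp N q m)) • ρ x := by
      rw [w, mul_smul_comm, h2, a, smul_smul]
    have z' : ρ (sh N n) * (ρ (T * x) * wt N q m) = (p' * η (T * x * pp N q m)) • ρ (T * x) := by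
      rw [w', mul_smul_comm, h2, a', smul_smul]
    have z2 : ρ (sh N n) * (ρ (T * x) * wt N q m) = (e * (p * η (x * pp N q m))) • ρ (T * x) := by
      rw [hu, smul_mul_assoc, mul_smul_comm, mul_assoc, ← mul_assoc, k1, smul_mul_assoc,
        mul_assoc, z, mul_smul_comm]
      simp only [smul_smul]
      congr 1; ring
    have z3 := hL.uniq _ _ _ (z'.symm.trans z2)
    rw [← k2, Perm.sign_mul, sg, Units.val_mul, mul_pow, mul_assoc, z3]
    ring
  have pm : ∀ x, c x = 1 ∨ c x = -1 := by
    intro x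
    simp only [hc]
    rcases Int.units_eq_one_or (sign x) with u | u <;>
      rcases (rho_wt q hN2 hρ x m).2 with v | v <;> rcases h1 (x * pp N q m) with w | w <;>
      rcases neg_one_pow_eq_or ℤ (m + 1) with z | z <;> simp [u, v, w, z]
  have p2 : ∀ y i j, i ≠ j → S y i j * η (y * swap i j) = η y * S (sh N n * y) i j := by
    intro y i j hij
    apply hL.uniq (sh N n * (y * swap i j))
    rw [← smul_smul, ← h2, ← mul_smul_comm, ← (hρ.2 y i j hij).2, ← mul_assoc, h2,
      smul_mul_assoc, (hρ.2 _ i j hij).2, smul_smul, mul_assoc]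
  by_cases hx : ∃ (x : St N) (π : St n), sh N n * (x * pp N q m) = x ∧
      ∀ i : ZMod n, ((x (i.val * q : ℕ)).val : ZMod n) = π i
  · obtain ⟨x0, π0, a0, b0⟩ := hx
    refine ⟨η, c x0 * (sign π0 : ℤ), h1, p2, ?_, fun x π a b => ?_⟩
    · rcases Int.units_eq_one_or (sign π0) with u | u <;> rcases pm x0 with v | v <;> simp [u, v]
    · refine (key x0 x π0 π a0 a b0 b).trans ?_
      rw [Perm.sign_mul, sign_inv, Units.val_mul]; ring
  · exact ⟨η, 1, h1, p2, Or.inl rfl, fun x π a b => absurd ⟨x, π, a, b⟩ hx⟩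

end Pool.Agent.P.MP_8a22ed_gt.GH
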