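import Pool.Agent.P.MP_8a22ed_gt.GH.Eqv

/-! The commutator signs of lifts of permutations that commute with the shift. -/

namespace Pool.Agent.P.MP_8a22ed_gt.GH.Eta

open Equiv Equiv.Perm

/-- A projective lift of a symmetric group in which disjoint odd permutations anticommute. -/
structure Lift {ι A : Type} [Fintype ι] [DecidableEq ι] [Ring A] (ρ : Perm ι → A) : Prop where
  one : ρ 1 = 1
  uniq : ∀ x (e e' : ℤ), e • ρ x = e' • ρ x → e = e'
  mul : ∀ x y, ∃ e : ℤ, (e = 1 ∨ e = -1) ∧ ρ x * ρ y = e • ρ (x * y)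
  disj : ∀ x y, (∀ z, x z = z ∨ y z = z) →
    ρ x * ρ y = (if sign x = -1 ∧ sign y = -1 then -1 else 1 : ℤ) • (ρ y * ρ x)

section
variable {ι A : Type} [Fintype ι] [DecidableEq ι] [Ring A] {ρ : Perm ι → A}

/-- The commutator sign. -/
def K (ρ : Perm ι → A) (x y : Perm ι) (e : ℤ) : Prop := ρ x * ρ y = e • (ρ y * ρ x)

theorem Lift.mul' (h : Lift ρ) (x y : Perm ι) :
    ∃ e : ℤ, (e = 1 ∨ e = -1) ∧ ρ (x * y) = e • (ρ x * ρ y) := by
  obtain ⟨e, he, H⟩ := h.mul x y
  refine ⟨e, he, ?_⟩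
  rw [H, smul_smul]
  rcases he with rfl | rfl <;> simp

theorem Lift.rel (h : Lift ρ) {x y x' y' : Perm ι} (H : x * y = x' * y') :
    ∃ e : ℤ, (e = 1 ∨ e = -1) ∧ ρ x * ρ y = e • (ρ x' * ρ y') := by
  obtain ⟨e, he, H1⟩ := h.mul x y
  obtain ⟨e', he', H2⟩ := h.mul' x' y'
  refine ⟨e * e', ?_, by rw [H1, H, H2, smul_smul]⟩
  rcases he with rfl | rfl <;> rcases he' with rfl | rfl <;> simp

theorem Lift.uniq2 (h : Lift ρ) {x y : Perm ι} {e e' : ℤ} (H : e • (ρ x * ρ y) = e' • (ρ x * ρ y)) :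
    e = e' := by
  obtain ⟨u, hu, H1⟩ := h.mul x y
  rw [H1, smul_smul, smul_smul] at H
  have := h.uniq _ _ _ H
  rcases hu with rfl | rfl <;> simpa using this

theorem Lift.K_right (h : Lift ρ) {x y y' : Perm ι} {e e' : ℤ} (H : K ρ x y e)
    (H' : K ρ x y' e') : K ρ x (y * y') (e * e') := by
  obtain ⟨u, -, H1⟩ := h.mul' y y'
  unfold K at *
  rw [H1, mul_smul_comm, ← mul_assoc, H, smul_mul_assoc, mul_assoc, H', mul_smul_comm,
    smul_mul_assoc, smul_smul, smul_smul, smul_smul]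
  simp only [mul_assoc]
  congr 1; ring

theorem Lift.K_left (h : Lift ρ) {x x' y : Perm ι} {e e' : ℤ} (H : K ρ x y e)
    (H' : K ρ x' y e') : K ρ (x * x') y (e * e') := by
  obtain ⟨u, -, H1⟩ := h.mul' x x'
  unfold K at *
  rw [H1, smul_mul_assoc, mul_assoc, H', mul_smul_comm, ← mul_assoc, H, smul_mul_assoc,
    mul_smul_comm, smul_smul, smul_smul, smul_smul]
  simp only [mul_assoc]
  congr 1; ring

theorem Lift.K_swap (h : Lift ρ) {c c' T : Perm ι} (hT : T * T = 1) (h1 : T * c = c' * T)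
    (h2 : T * c' = c * T) {e : ℤ} (H : K ρ c c' e) :
    K ρ (c * c') T e := by
  obtain ⟨u, hu, H1⟩ := h.rel h1
  obtain ⟨u', hu', H2⟩ := h.rel h2
  obtain ⟨v, hv, H3⟩ := h.mul T T
  obtain ⟨w, -, H4⟩ := h.mul' c c'
  rw [hT, h.one] at H3
  have huu : u * u' = 1 := by
    have a : ρ T * (ρ T * ρ c) = (u * u') • (ρ c * (ρ T * ρ T)) := by
      rw [H1, mul_smul_comm, ← mul_assoc, H2, smul_mul_assoc, smul_smul, mul_assoc]
    rw [← mul_assoc, H3, smul_mul_assoc, mul_smul_comm, one_mul, mul_one, smul_smul] at a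
    have := h.uniq _ _ _ a
    rcases hv with rfl | rfl <;> simpa using this.symm
  have a : ρ T * (ρ c * ρ c') = ρ c' * ρ c * ρ T := by
    rw [← mul_assoc, H1, smul_mul_assoc, mul_assoc, H2, mul_smul_comm, smul_smul, huu, one_smul,
      mul_assoc]
  unfold K at *
  rw [H4, smul_mul_assoc, mul_smul_comm, a, H, smul_mul_assoc, smul_comm]

end

section
variable {α A : Type} [Fintype α] [DecidableEq α] [Ring A] {q : ℕ} [NeZero q]

/-- The shifts inside the classes. -/
def B (f : α → ZMod q) : Perm (α × ZMod q) := prodCongrRight fun a => Equiv.addRight (f a)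

/-- The permutations of the classes. -/
def L (q : ℕ) (π : Perm α) : Perm (α × ZMod q) := prodCongrLeft fun _ => π

omit [Fintype α] [DecidableEq α] [NeZero q] in
@[simp] theorem B_apply (f : α → ZMod q) (z : α × ZMod q) : B f z = (z.1, z.2 + f z.1) := rfl

omit [Fintype α] [DecidableEq α] [NeZero q] in
@[simp] theorem L_apply (π : Perm α) (z : α × ZMod q) : L q π z = (π z.1, z.2) := rfl

omit [Fintype α] [DecidableEq α] [NeZero q] in
theorem B_add (f g : α → ZMod q) : B (f + g) = B f * B g := by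
  ext z <;> simp [add_assoc, add_comm (g _)]

theorem sign_L (π : Perm α) : sign (L q π) = sign π ^ q := by
  rw [L, sign_prodCongrLeft]; simp

theorem sign_c (a : α) : sign (B (Pi.single a (1 : ZMod q))) = (-1) ^ (q - 1) := by
  rw [B, sign_prodCongrRight, Finset.prod_eq_single a]
  · obtain ⟨q, rfl⟩ := Nat.exists_eq_succ_of_ne_zero (NeZero.ne q)
    rw [← sign_finRotate]
    congr 1
    ext k
    rw [Pi.single_eq_same]
    exact (finRotate_apply (n := q + 1) k).symm
  · intro b _ hb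
    rw [Pi.single_eq_of_ne hb]
    simp
  · simp

variable {ρ : Perm (α × ZMod q) → A}

/-- The corrected commutator sign of `θ` with the shift is `s`. -/
def PP (ρ : Perm (α × ZMod q) → A) (m : ℕ) (θ : Perm (α × ZMod q)) (s : ℤ) : Prop :=
  ∃ e : ℤ, K ρ (B 1) θ e ∧ (sign θ : ℤ) ^ (m + 1) * e = s

theorem P_one (h : Lift ρ) (m : ℕ) : PP ρ m 1 1 := ⟨1, by simp [K, h.one], by simp⟩

theorem P_mul (h : Lift ρ) {m : ℕ} {θ θ' : Perm (α × ZMod q)} {s s' : ℤ} (H : PP ρ m θ s)
    (H' : PP ρ m θ' s') : PP ρ m (θ * θ') (s * s') := by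
  obtain ⟨e, H1, rfl⟩ := H
  obtain ⟨e', H2, rfl⟩ := H'
  exact ⟨_, h.K_right H1 H2, by rw [Perm.sign_mul, Units.val_mul, mul_pow]; ring⟩

theorem P_c (h : Lift ρ) {m : ℕ} (hm : sign (B (1 : α → ZMod q)) = (-1) ^ m) (a : α) :
    PP ρ m (B (Pi.single a 1)) 1 := by
  have e1 : B (1 : α → ZMod q) = B (Pi.single a 1) * B (1 - Pi.single a 1) := by
    rw [← B_add, add_sub_cancel]
  have d := h.disj (B (1 - Pi.single a 1)) (B (Pi.single a 1)) (fun z => by
    by_cases hz : z.1 = a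
    · left; ext <;> simp [hz]
    · right; ext <;> simp [hz])
  have k1 : K ρ (B (Pi.single a 1)) (B (Pi.single a 1)) 1 := by simp [K]
  refine ⟨_, e1 ▸ h.K_left k1 d, ?_⟩
  rw [e1, Perm.sign_mul] at hm
  rcases Int.units_eq_one_or (sign (B (Pi.single a 1 : α → ZMod q))) with u | u <;>
    rcases Int.units_eq_one_or (sign (B ((1 : α → ZMod q) - Pi.single a 1))) with v | v <;>
    rw [u, v] at hm <;> simp only [u, v] <;> rcases Nat.even_or_odd m with w | w <;>
    simp_all [pow_succ, w.neg_one_pow]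

theorem P_T (h : Lift ρ) {m : ℕ} (hm : sign (B (1 : α → ZMod q)) = (-1) ^ m) {a b : α}
    (hab : a ≠ b) : PP ρ m (L q (swap a b)) (-1) := by
  have e1 : B (1 : α → ZMod q) = B (Pi.single a 1) * B (Pi.single b 1) *
      B (1 - (Pi.single a 1 + Pi.single b 1)) := by
    rw [← B_add, ← B_add, add_sub_cancel]
  have d := h.disj (B (1 - (Pi.single a 1 + Pi.single b 1))) (L q (swap a b)) (fun z => by
    by_cases hz : z.1 = a
    · left; ext <;> simp [hz, hab]
    · by_cases hz' : z.1 = b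
      · left; ext <;> simp [hz', hab.symm]
      · right; ext <;> simp [swap_apply_of_ne_of_ne hz hz'])
  have d2 := h.disj (B (Pi.single a 1)) (B (Pi.single b 1)) (fun z => by
    by_cases hz : z.1 = a
    · right; ext <;> simp [hz, hab]
    · left; ext <;> simp [hz])
  have t : ∀ a b : α, L q (swap a b) * B (Pi.single a (1 : ZMod q)) =
      B (Pi.single b 1) * L q (swap a b) := by
    intro a b
    ext z
    · simp
    · simp [Pi.single_apply, swap_apply_eq_iff]
  have k2 := h.K_swap (c := B (Pi.single a 1)) (c' := B (Pi.single b 1)) (T := L q (swap a b))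
    (by ext z <;> simp) (t a b) (by rw [swap_comm]; exact t b a) d2
  refine ⟨_, e1 ▸ h.K_left k2 d, ?_⟩
  rw [e1, Perm.sign_mul, Perm.sign_mul, sign_c, sign_c, ← mul_pow] at hm
  rw [sign_c, sign_c, sign_L, sign_swap hab]
  obtain ⟨q, rfl⟩ := Nat.exists_eq_succ_of_ne_zero (NeZero.ne q)
  simp only [Nat.succ_eq_add_one, Nat.add_sub_cancel, pow_succ] at *
  rcases Nat.even_or_odd m with w | w <;> rcases Nat.even_or_odd q with w' | w' <;>
    simp_all [w.neg_one_pow, w'.neg_one_pow]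

theorem P_B (h : Lift ρ) {m : ℕ} (hm : sign (B (1 : α → ZMod q)) = (-1) ^ m) (f : α → ZMod q) :
    PP ρ m (B f) 1 := by
  have h0 : PP ρ m (B 0) 1 := by
    rw [show B (0 : α → ZMod q) = 1 by ext z <;> simp]; exact P_one h m
  have h1 : ∀ f g, PP ρ m (B f) 1 → PP ρ m (B g) 1 → PP ρ m (B (f + g)) 1 := fun f g a b => by
    simpa [B_add] using P_mul h a b
  refine Pi.single_induction (fun f => PP ρ m (B f) 1) f h0 h1 fun a k => ?_
  rw [← ZMod.natCast_zmod_val k]
  induction k.val with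
  | zero => simpa using h0
  | succ j ih => rw [Nat.cast_succ, Pi.single_add]; exact h1 _ _ ih (P_c h hm a)

theorem P_L (h : Lift ρ) {m : ℕ} (hm : sign (B (1 : α → ZMod q)) = (-1) ^ m) (π : Perm α) :
    PP ρ m (L q π) (sign π) := by
  induction π using swap_induction_on with
  | one => rw [show L q (1 : Perm α) = 1 by ext z <;> simp]; simpa using P_one h m
  | swap_mul π a b hab ih =>
    rw [show L q (swap a b * π) = L q (swap a b) * L q π by ext z <;> simp]
    simpa [hab] using P_mul h (P_T h hm hab) ih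

theorem P_all (h : Lift ρ) {m : ℕ} (hm : sign (B (1 : α → ZMod q)) = (-1) ^ m)
    (θ : Perm (α × ZMod q)) (π : Perm α) (hc : B 1 * θ = θ * B 1)
    (hπ : ∀ a, ∃ k, (θ (a, k)).1 = π a) : PP ρ m θ (sign π) := by
  have s1 : ∀ a (j : ℕ), θ (a, j) = ((θ (a, 0)).1, (θ (a, 0)).2 + j) := by
    intro a j
    induction j with
    | zero => simp
    | succ j ih =>
      have := congrArg (fun f : Perm _ => f (a, (j : ZMod q))) hc
      simp only [mul_apply, B_apply, Pi.one_apply] at this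
      rw [Nat.cast_succ, ← this, ih, add_assoc]
  have s2 : θ = L q π * B fun a => (θ (a, 0)).2 := by
    ext ⟨a, k⟩
    · obtain ⟨k', hk⟩ := hπ a
      rw [← ZMod.natCast_zmod_val k', s1] at hk
      rw [← ZMod.natCast_zmod_val k, s1]; simpa using hk
    · rw [← ZMod.natCast_zmod_val k, s1]; simp [add_comm]
  rw [s2]
  simpa using P_mul h (P_L h hm π) (P_B h hm _)

end

end Pool.Agent.P.MP_8a22ed_gt.GH.Eta
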