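import Pool.Agent.P.MP_8a22ed_gt.GH.St

/-! Pentagons without markings. -/

namespace Pool.Agent.P.MP_8a22ed_gt.GH

open Finset Matrix Equiv

namespace Good

variable {N : ℕ} [NeZero N] {X O : ZMod N → ZMod N} {c u v : ZMod N}

omit [NeZero N] in
theorem ne (h : MvPolynomial.constantCoeff (cw X O c u v) ≠ 0) :
    ¬ ico u (X c) v ∧ ¬ ico u (O c) v := by
  unfold cw at h
  split_ifs at h with h1 h2
  · simp at h
  · simp at h
  · exact ⟨h1, h2⟩

omit [NeZero N] in
theorem one (h1 : ¬ ico u (X c) v) (h2 : ¬ ico u (O c) v) : cw X O c u v = 1 := by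
  rw [cw, if_neg h1, if_neg h2]

end Good

theorem st_good : S_good := by
  intro N _ S X O i0 h x
  refine ⟨fun i j e => ?_, fun ⟨a1, a2, a3, a4, a5, a6, a7, a8⟩ => ?_⟩
  · by_cases h1 : Emp x i j ∧ (i = i0 ∨ j = i0)
    · rw [pent, if_pos h1, map_zsmul, map_mul, map_prod] at e
      obtain ⟨e1, e2⟩ := mul_ne_zero_iff.1 (right_ne_zero_of_smul e)
      by_cases h2 : ico (x i) h (x j)
      · rw [pe, if_pos h2, map_mul, mul_ne_zero_iff] at e2
        exact ⟨h1.1.1, h1.2, h2, fun c b1 b2 b3 => Good.ne (prod_ne_zero_iff.1 e1 c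
          (mem_filter.2 ⟨mem_univ _, b1, b2, b3⟩)), (Good.ne e2.1).1, (Good.ne e2.1).2,
          Good.ne e2.2⟩
      · simp [pe, h2] at e2
    · simp [pent, h1] at e
  · have h1 : Emp x (i0 - 1) i0 := ⟨a1, fun p hp e _ => hp (by
      have := ZMod.val_one_eq_one_mod N
      have := Nat.mod_le 1 N
      rw [ico, sub_sub_cancel] at e
      exact sub_eq_zero.1 ((ZMod.val_eq_zero _).1 (by omega)))⟩
    rw [pent, if_pos ⟨h1, a2⟩, if_pos rfl, pe, if_pos a3, Good.one a5 a6, Good.one a7 a8,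
      prod_eq_one fun c hc => by
        obtain ⟨-, b1, b2, b3⟩ := mem_filter.1 hc
        exact Good.one (a4 c b1 b2 b3).1 (a4 c b1 b2 b3).2]
    simp

end Pool.Agent.P.MP_8a22ed_gt.GH
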