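import Pool.Agent.P.MP_8a22ed_gt.GH.Eqv

/-! The markings and primitives of a periodic grid. -/

namespace Pool.Agent.P.MP_8a22ed_gt.GH

open Finset Matrix Equiv

namespace Grid

theorem up_bij {N n q : ℕ} [NeZero N] [NeZero n] (hN : N = q * n) {a : ZMod n → ℤ}
    (ha : Function.Bijective fun i => (a i : ZMod n)) : Function.Bijective (up N q a) := by
  refine Finite.injective_iff_bijective.1 fun c c' e => ?_
  have lt : ∀ c : ZMod N, c.val / q < n := fun c => Nat.div_lt_of_lt_mul (hN ▸ c.val_lt)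
  have q0 : 0 < q := Nat.pos_of_ne_zero fun h => NeZero.ne N (by rw [hN, h, zero_mul])
  obtain ⟨t, ht⟩ := (ZMod.intCast_eq_intCast_iff_dvd_sub _ _ N).1 e
  rw [show (N : ℤ) = q * n by exact_mod_cast hN] at ht
  have h1 := ha.1 ((ZMod.intCast_eq_intCast_iff_dvd_sub (a (c.val / q : ℕ)) (a (c'.val / q : ℕ))
    n).2 ⟨q * t + (c.val % q : ℕ) - (c'.val % q : ℕ), by linear_combination ht⟩)
  rw [h1] at ht
  have h2 := congrArg ZMod.val h1
  rw [ZMod.val_cast_of_lt (lt c), ZMod.val_cast_of_lt (lt c')] at h2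
  have h3 : ((c'.val % q : ℕ) : ℤ) - (c.val % q : ℕ) = q * t :=
    mul_right_cancel₀ (Nat.cast_ne_zero.2 (NeZero.ne n)) (by linear_combination ht)
  have h4 := Int.eq_zero_of_abs_lt_dvd ⟨t, h3⟩ (by
    have := Nat.mod_lt c.val q0
    have := Nat.mod_lt c'.val q0
    rw [abs_lt]; omega)
  rw [eq_iff_val, ← Nat.div_add_mod c.val q, ← Nat.div_add_mod c'.val q, h2]
  omega

variable {M : ℕ} [NeZero M] {X O : ZMod M → ZMod M} {g : ZMod M → ZMod M → ℤ}

theorem avg (hX : Function.Bijective X) (hO : Function.Bijective O) (h : Mk X O g) {l : ℤ}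
    (hl : ∑ c, ∑ r, g c r = l * M) (r : ZMod M) : ∑ c, g c r = l := by
  have h1 : ∀ v, ∑ c, g c v = ∑ c, g c r := fun v => by
    rw [← sub_eq_zero, ← sum_sub_distrib, sum_congr rfl fun c _ => h c r v, sum_sub_distrib,
      hX.sum_comp fun y => if ico r y v then (1 : ℤ) else 0,
      hO.sum_comp fun y => if ico r y v then (1 : ℤ) else 0, sub_self]
  rw [sum_comm, sum_congr rfl fun v _ => h1 v, sum_const, card_univ, ZMod.card, nsmul_eq_mul,
    mul_comm] at hl
  exact mul_right_cancel₀ (Nat.cast_ne_zero.2 (NeZero.ne M)) hl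

theorem wn_eq (h : Mk X O g) :
    ∃ f : ZMod M → ℤ, ∀ p r, wn X O p r = ∑ c with c.val < p.val, g c r + f p := by
  refine ⟨fun p => -∑ c with c.val < p.val, g c 0, fun p r => ?_⟩
  rw [← sub_eq_add_neg, ← sum_sub_distrib]
  exact sum_congr rfl fun c _ => by simp only [h c 0 r, ico, sub_zero]

end Grid

open Grid in
theorem st_grid (h1 : S_pw) : S_grid := by
  intro N n q _ _ D
  have hq := D.hq
  have : NeZero q := ⟨by omega⟩
  have b : ∀ (i : ZMod n) (k : ℤ), |D.x i + k - (D.o i + k)| < N := fun i k => by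
    rw [add_sub_add_right_eq_sub]
    refine (D.hxo i).trans_le ?_
    exact_mod_cast D.hN ▸ Nat.le_mul_of_pos_left n (by omega)
  have bX : Function.Bijective D.X := up_bij D.hN D.hx
  have bO : Function.Bijective D.O := up_bij D.hN D.ho
  have m1 : Mk D.X D.O D.W := fun c => (h1.1 N _ _ (b _ _)).1
  have m2 : Mk D.Xb D.Ob D.Wb := fun i => (h1.1 n _ _ (D.hxo i)).1
  have s : ∑ i, (D.o i - D.x i) = -D.l * n := by
    rw [neg_mul, ← D.hl, ← sum_neg_distrib]
    simp only [neg_sub]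
  refine ⟨bX, bO, m1, m2, avg bX bO m1 ?_, avg D.hx D.ho m2 ?_, wn_eq m1, wn_eq m2⟩
  · refine (sum_congr rfl fun c _ => (h1.1 N _ _ (b _ _)).2).trans ?_
    rw [← (colE D.hN).sum_comp, Fintype.sum_prod_type]
    simp only [add_sub_add_right_eq_sub, colE_div, ZMod.natCast_zmod_val, sum_const, card_univ,
      ZMod.card, nsmul_eq_mul]
    rw [← mul_sum, s, show (N : ℤ) = q * n by exact_mod_cast D.hN]
    ring
  · rw [← s]
    exact sum_congr rfl fun i _ => (h1.1 n _ _ (D.hxo i)).2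

end Pool.Agent.P.MP_8a22ed_gt.GH
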