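import Pool.Agent.P.MP_8a22ed_gt.GH.St

/-! The two conditions on the triangular weights that kill the annuli. -/

namespace Pool.Agent.P.MP_8a22ed_gt.GH

open Finset Matrix Equiv

namespace Hv

variable {N : ℕ} [NeZero N]

theorem ico_split {u h v : ZMod N} (H : ico u h v ∨ h = v) (t : ZMod N) :
    (ico u t v ↔ ico u t h ∨ ico h t v) ∧ ¬ (ico u t h ∧ ico h t v) := by
  have h1 := ZMod.val_lt u
  have h2 := ZMod.val_lt h
  have h3 := ZMod.val_lt v
  have h4 := ZMod.val_lt t
  simp only [ico_iff, eq_iff_val] at H ⊢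
  omega

theorem ico_compl {u v : ZMod N} (H : u ≠ v) (t : ZMod N) : ico v t u ↔ ¬ ico u t v := by
  have h1 := ZMod.val_lt u
  have h3 := ZMod.val_lt v
  have h4 := ZMod.val_lt t
  simp only [ico_iff, Ne, eq_iff_val] at H ⊢
  omega

theorem cw_mul (X O : ZMod N → ZMod N) (c : ZMod N) {u h v : ZMod N} (H : ico u h v ∨ h = v) :
    cw X O c u h * cw X O c h v = cw X O c u v := by
  obtain ⟨a1, a2⟩ := ico_split H (X c)
  obtain ⟨b1, b2⟩ := ico_split H (O c)
  unfold cw
  by_cases x1 : ico u (X c) h <;> by_cases x2 : ico h (X c) v <;>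
    by_cases o1 : ico u (O c) h <;> by_cases o2 : ico h (O c) v <;>
    simp [a1, b1, x1, x2, o1, o2] at a2 b2 ⊢

theorem cw_zero (X O : ZMod N → ZMod N) (c : ZMod N) {u v : ZMod N} (H : u ≠ v) :
    cw X O c u v * cw X O c v u = 0 := by
  unfold cw
  by_cases x1 : ico u (X c) v
  · simp [x1]
  · have : ico v (X c) u := (ico_compl H _).2 x1
    simp [this]

/-- The common value of the two corner entries. -/
noncomputable def ww (X O : ZMod N → ZMod N) (i0 h b : ZMod N) : Rg N :=
  if h = b then 0 else cw X O i0 b h * cw X O (i0 - 1) h b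

theorem key (X O : ZMod N → ZMod N) (i0 h : ZMod N) {b c : ZMod N} (H : b ≠ c) :
    cw X O i0 b c * pe X O i0 h c b + pe X O i0 h b c * cw X O (i0 - 1) c b = ww X O i0 h b := by
  have h1 := ZMod.val_lt b
  have h2 := ZMod.val_lt c
  have h3 := ZMod.val_lt h
  unfold pe ww
  by_cases x1 : ico b h c
  · have x2 : ¬ ico c h b := fun e => (ico_compl H _).1 e x1
    rw [if_pos x1, if_neg x2, mul_zero, zero_add]
    by_cases e : h = b
    · rw [if_pos e, e, mul_right_comm, cw_zero X O _ H, zero_mul]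
    · have x3 : ico h c b ∨ c = b := by
        simp only [ico_iff, Ne, eq_iff_val] at x1 e H ⊢
        omega
      rw [if_neg e, mul_right_comm, cw_mul X O _ x3, mul_comm]
  · have x2 : ico c h b := (ico_compl H _).2 x1
    have e : ¬ h = b := by
      simp only [ico_iff, eq_iff_val] at x2 ⊢
      omega
    have x3 : ico b c h ∨ c = h := by
      simp only [ico_iff, Ne, eq_iff_val] at x2 e H ⊢
      omega
    rw [if_neg x1, if_pos x2, if_neg e, zero_mul, add_zero, ← cw_mul X O _ x3]
    ring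

omit [NeZero N] in
theorem one_ne (hN : 2 ≤ N) : (1 : ZMod N) ≠ 0 := by
  have : Fact (1 < N) := ⟨hN⟩
  exact one_ne_zero

omit [NeZero N] in
theorem ico_succ (hN : 2 ≤ N) (u : ZMod N) : ico u u (u + 1) := by
  have : Fact (1 < N) := ⟨hN⟩
  simp [ico, ZMod.val_one]

end Hv

open Hv in
theorem st_hv : S_hv := by
  intro N _ X O i0 h hN hX
  have h1 : ∀ p : ZMod N, p + 1 ≠ p := fun p e => one_ne hN (by simpa using e)
  have h2 : i0 - 1 ≠ i0 := fun e => h1 (i0 - 1) (by rw [sub_add_cancel]; exact e.symm)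
  refine ⟨fun u => ?_, fun x => ?_⟩
  · obtain ⟨c, hc⟩ := hX u
    have z : cw X O c u (u + 1) = 0 := by
      unfold cw
      rw [hc, if_pos (ico_succ hN u)]
    by_cases e1 : c = i0
    · exact ⟨i0, by rw [sM, if_pos rfl, ← e1, z, mul_zero]⟩
    by_cases e2 : c = i0 - 1
    · exact ⟨i0, by rw [sM, if_pos rfl, ← e2, z, zero_mul]⟩
    · exact ⟨c, by rw [sM, if_neg e1, if_neg e2, z]⟩
  · have hx : ∀ p : ZMod N, x p ≠ x (p + 1) := fun p e => h1 p (x.injective e).symm
    rw [Finset.sum_eq_add_of_mem i0 (i0 - 1) (mem_univ _) (mem_univ _) h2.symm]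
    · have k1 := key X O i0 h (hx i0)
      have hx' : x i0 ≠ x (i0 - 1) := fun e => h2 (x.injective e).symm
      have k2 := key X O i0 h hx'
      have z1 := cw_zero X O i0 (hx i0)
      have z2 := cw_zero X O (i0 - 1) (hx i0)
      have z3 := cw_zero X O i0 hx'.symm
      have z4 := cw_zero X O (i0 - 1) hx'.symm
      simp only [sR, sL, sub_add_cancel, if_true, if_neg (h1 i0), if_neg h2, mul_one, one_mul,
        Matrix.mul_fin_two]
      refine Matrix.ext fun i j => ?_
      fin_cases i <;> fin_cases j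
      · simp [z1, z4]
      · simp only [Fin.zero_eta, Fin.mk_one, Fin.isValue, Matrix.add_apply, Matrix.of_apply,
          Matrix.cons_val', Matrix.cons_val_zero, Matrix.cons_val_one, Matrix.cons_val_fin_one,
          Matrix.zero_apply]
        linear_combination k2 - k1
      · simp
      · simp [z2, z3]
    · rintro p - ⟨e1, e2⟩
      have e3 : p + 1 ≠ i0 := fun e => e2 (by rw [← e, add_sub_cancel_right])
      simp only [sR, sL, if_neg e1, if_neg e2, if_neg e3, mul_one]
      rw [← map_mul, cw_zero X O p (hx p), map_zero]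

end Pool.Agent.P.MP_8a22ed_gt.GH
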