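import Pool.Agent.P.MP_8a22ed_gt.GH.St

/-! The trace formula in the residue class of zero. -/

namespace Pool.Agent.P.MP_8a22ed_gt.GH

open Equiv Finset

theorem st_key (h1 : S_rel) (h2 : S_eta) (h3 : S_key1) (h4 : S_cinv) (h5 : S_path) (h6 : S_good)
    (h7 : S_psi) (h8 : S_area) (h9 : S_tight) (h10 : S_adj) (h11 : S_back) (h12 : S_fam)
    (h13 : S_famA) : S_key := by
  intro N n q _ _ D S hS hl hT
  obtain ⟨η, c0, e1, e2, e3, e4⟩ := h2 N n q D.hN D.hq S hS
  have k1 := h3 N n q D S η (h1 N S hS) e1 e2 hT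
  refine ⟨fun a => (k1 a).1, fun s hs => ?_⟩
  have k2 := (k1 _).2 hs
  have hq0 : (q : ℤ) ≠ 0 := by have := D.hq; omega
  set m := n * (q - 1) with hm
  set t : ℕ → St N → ZMod N → ZMod N → ℚ :=
    fun s z i j => MvPolynomial.constantCoeff (D.ps S s z i j) with ht
  set F : St n → St N := fun π => Equiv.ofBijective _ (h12 N n q D π).1 with hF
  have hF1 : ∀ π c, F π c = D.fam π c := fun _ _ => rfl
  have cl : ∀ (x : St N) γ, (∀ s < m, t s (walk x γ s) (γ s).1 (γ s).2 ≠ 0) →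
      walk x γ m = (sh N n)⁻¹ * x → Cl D x γ := fun x γ a b =>
    ⟨fun s hs => (h6 N S _ _ _ _ _).1 _ _ (a s hs), by rw [b]; simp⟩
  have val : ∀ x : St N, (q : ℤ) ∣ pot D.W x →
      prodM (fun s => mat (t s)) m x ((sh N n)⁻¹ * x) =
        if walk x (g0 N q) m = (sh N n)⁻¹ * x then
          ∏ s ∈ range m, t s (walk x (g0 N q) s) (g0 N q s).1 (g0 N q s).2 else 0 := by
    intro x hx
    refine h5 N t m x _ _ fun γ a b => ?_
    have c := cl x γ a b
    exact h10 N n q D x γ c (h9 N n q D.hN x γ m c.2 (h7 N n q D x γ c hl hx) (h8 N n q D x γ c))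
  have inj : Function.Injective F := by
    intro π π' h
    ext i
    rw [← ((h12 N n q D π).2 _ (hF1 π)).2 i, ← ((h12 N n q D π').2 _ (hF1 π')).2 i, h]
  rw [← sum_subset (subset_univ (univ.image F)), sum_image fun _ _ _ _ h => inj h] at k2
  · have : ∀ π : St n, ((Perm.sign (F π) : ℤ) : ℚ) ^ (m + 1) *
        prodM (fun s => mat (t s)) m (F π) ((sh N n)⁻¹ * F π) * (η ((sh N n)⁻¹ * F π) : ℚ) *
        (cinv (sh N n) (pot D.W (F π) - q * s) : ℚ) =
        ((c0 * ((Perm.sign π : ℤ) * cnt n (pot D.Wb π - s)) : ℤ) : ℚ) := by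
      intro π
      obtain ⟨c, c'⟩ := (h12 N n q D π).2 _ (hF1 π)
      have a := h13 N n q D π _ (hF1 π)
      have w : walk (F π) (g0 N q) m = (sh N n)⁻¹ * F π := by
        rw [eq_inv_mul_iff_mul_eq]; exact c.2
      have b := e4 (F π) π (by rw [← walk_g0]; exact c.2) c'
      rw [val _ ⟨_, a⟩, if_pos w, ← w, walk_g0, a, ← mul_sub, h4 N n q D.hN,
        if_pos (dvd_mul_right _ _), Int.mul_ediv_cancel_left _ hq0, ← mul_assoc c0, ← b]
      push_cast
      congr 3
      refine prod_congr rfl fun s hs => ?_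
      have g := c.1 s (mem_range.1 hs)
      rw [← walk_g0]
      exact (h6 N S _ _ _ _ _).2 g
    rw [sum_congr rfl fun π _ => this π, ← Int.cast_sum, ← mul_sum, Int.cast_eq_zero] at k2
    exact (mul_eq_zero.1 k2).resolve_left (by rcases e3 with u | u <;> simp [u])
  · intro x _ hx
    by_cases hd : (q : ℤ) ∣ pot D.W x
    · rw [val x hd]
      split_ifs with w
      · by_cases z : ∏ s ∈ range m, t s (walk x (g0 N q) s) (g0 N q s).1 (g0 N q s).2 = 0
        · simp [z]
        · obtain ⟨π, hπ⟩ := h11 N n q D x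
            (cl x _ (fun s hs => prod_ne_zero_iff.1 z s (mem_range.2 hs)) w)
          exact absurd (mem_image.2 ⟨π, mem_univ _, (Equiv.ext hπ).symm⟩) hx
      · simp
    · rw [h4 N n q D.hN, if_neg fun h => hd (by simpa using dvd_add h (dvd_mul_right (q : ℤ) s))]
      simp

end Pool.Agent.P.MP_8a22ed_gt.GH
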