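import Pool.Agent.P.MP_8a22ed_gt.GH.St

/-! The period map on the grid complex and its trace. -/

namespace Pool.Agent.P.MP_8a22ed_gt.GH

open Equiv Finset

namespace Key1

theorem hom_mul {I σ : Type} [Fintype I] {A A' A'' : I → ℤ} {M M' : Matrix I I (MvPolynomial σ ℚ)}
    (h : Hom A A' M) (h' : Hom A' A'' M') : Hom A A'' (M * M') := by
  classical
  intro x z m hm
  rw [Matrix.mul_apply] at hm
  obtain ⟨y, -, hy⟩ := mem_biUnion.1 (MvPolynomial.support_sum hm)
  obtain ⟨a, ha, b, hb, rfl⟩ := mem_add.1 (MvPolynomial.support_mul _ _ hy)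
  have := h x y a ha
  have := h' y z b hb
  rw [map_add]; push_cast; omega

theorem hom_one {I σ : Type} [DecidableEq I] (A : I → ℤ) :
    Hom A A (1 : Matrix I I (MvPolynomial σ ℚ)) := by
  classical
  intro x y m hm
  by_cases h : x = y
  · subst h
    rw [Matrix.one_apply_eq, MvPolynomial.support_one, mem_singleton] at hm
    simp [hm]
  · simp [Matrix.one_apply_ne h] at hm

variable {N : ℕ} [NeZero N]

theorem odd (S : Sg N) (X O : ZMod N → ZMod N) (x y : St N) (h : bd S X O x y ≠ 0) :
    (Perm.sign y : ℤ) = -(Perm.sign x : ℤ) := by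
  obtain ⟨i, -, h⟩ := exists_ne_zero_of_sum_ne_zero h
  obtain ⟨j, -, h⟩ := exists_ne_zero_of_sum_ne_zero h
  obtain ⟨rfl, h2⟩ : y = x * swap i j ∧ Emp x i j := by
    by_contra hc; exact h (if_neg hc)
  simp [h2.1]

omit [NeZero N] in
theorem ico_sh (t u v w : ZMod N) : ico (u + t) (v + t) (w + t) ↔ ico u v w := by
  simp [ico]

theorem ren {n : ℕ} (S : Sg N) (η : St N → ℤ) (X O X' O' : ZMod N → ZMod N)
    (hX : ∀ c, X' c = X c - n) (hO : ∀ c, O' c = O c - n) (h1 : ∀ y, η y = 1 ∨ η y = -1)
    (h2 : ∀ y i j, i ≠ j → S y i j * η (y * swap i j) = η y * S (sh N n * y) i j) (y z : St N) :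
    MvPolynomial.rename (sh N n) ((η y * η z) • bd S X' O' y z) =
      bd S X O (sh N n * y) (sh N n * z) := by
  have hs : ∀ (y : St N) p, (sh N n * y) p = y p + n := fun _ _ => rfl
  simp only [bd, smul_sum, map_sum]
  refine sum_congr rfl fun i _ => sum_congr rfl fun j _ => ?_
  have e1 : Emp (sh N n * y) i j ↔ Emp y i j := by simp only [Emp, hs, ico_sh]
  have e2 : sh N n * z = sh N n * y * swap i j ↔ z = y * swap i j := by
    rw [mul_assoc, mul_right_inj]
  simp only [e1, e2]
  split_ifs with h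
  · obtain ⟨rfl, h⟩ := h
    have e3 : η y * η (y * swap i j) * S y i j = S (sh N n * y) i j := by
      rw [mul_assoc, mul_comm _ (S y i j), h2 y i j h.1, ← mul_assoc]
      rcases h1 y with u | u <;> simp [u]
    rw [smul_smul, e3, map_zsmul, map_prod]
    refine congrArg _ (prod_congr rfl fun c _ => ?_)
    have a : ∀ w u v : ZMod N, ico u (w - n) v ↔ ico (u + (n : ZMod N)) w (v + n) :=
      fun w u v => by rw [← ico_sh (n : ZMod N) u, sub_add_cancel]
    simp only [cw, hX, hO, hs, a]
    split_ifs <;> simp [sh]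
  · simp

theorem prodM_map {I : Type} [Fintype I] [DecidableEq I] {A B : Type} [CommRing A] [CommRing B]
    (f : A →+* B) (P : ℕ → Matrix I I A) (m : ℕ) :
    (prodM P m).map f = prodM (fun s => (P s).map f) m := by
  induction m with
  | zero => simp [prodM]
  | succ m ih => rw [prodM, prodM, Matrix.map_mul, ih]

end Key1

open Key1 in
theorem st_key1 (h1 : S_dd) (h2 : S_hom) (h3 : S_tr) (h4 : S_pi) (h5 : S_grid) (h6 : S_end) :
    S_key1 := by
  intro N n q _ _ D S η hS e1 e2 hT a
  obtain ⟨bX, bO, mk, -⟩ := h5 N n q D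
  obtain ⟨eX, eO, eW, -, eh⟩ := h6 N n q D
  have hp := (h4 N n q D.hN D.hq).1
  have hN2 : 2 ≤ N := D.hN ▸ le_trans D.hq
    (Nat.le_mul_of_pos_right q (Nat.pos_of_ne_zero (NeZero.ne n)))
  set m := n * (q - 1) with hm
  set P : ℕ → Matrix (St N) (St N) (Rg N) := fun s => mat (D.ps S s) with hP
  set d : ℕ → Matrix (St N) (St N) (Rg N) :=
    fun s => bd S (D.X ∘ pp N q s) (D.O ∘ pp N q s) with hd
  have dd := fun s => h1 N S (D.X ∘ pp N q s) (D.O ∘ pp N q s) (ci N q s) (D.hh s) hN2 hS
    (bX.2.comp (pp N q s).surjective)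
  have hh := fun s => h2 N S (D.X ∘ pp N q s) (D.O ∘ pp N q s) (D.W ∘ pp N q s)
    (bX.comp (pp N q s).bijective) (bO.comp (pp N q s).bijective) fun c => mk _
  have c1 : ∀ s, d 0 * prodM P s = (-1 : ℤ) ^ s • (prodM P s * d s) := by
    intro s
    induction s with
    | zero => simp [prodM]
    | succ s ih =>
      have : d s * P s = -(P s * d (s + 1)) := eq_neg_of_add_eq_zero_left (dd s).2
      rw [prodM, ← mul_assoc, ih, smul_mul_assoc, mul_assoc, this, pow_succ, mul_assoc]
      simp
  have c2 : ∀ s ≤ m, Hom (pot D.W) (pot (D.W ∘ pp N q s)) (prodM P s) := by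
    intro s
    induction s with
    | zero => exact fun _ => hom_one _
    | succ s ih =>
      intro hs
      exact hom_mul (ih (by omega)) ((hh s).2 _ _ (hp s hs).2.2.2.1
        ((eh s hs).1.trans (eh s hs).2.1.symm))
  have key := h3 (St N) (ZMod N) (pot D.W) (fun x => Perm.sign x) (d 0)
    (fun y z => (η y * η z) • d m y z)
    (fun x y => ((Perm.sign x : ℤ) ^ (m + 1) * η y) • prodM P m x y)
    (Equiv.mulLeft (sh N n)) (sh N n)
    (fun x => by rcases Int.units_eq_one_or (Perm.sign x) with u | u <;> simp [u])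
    (odd S _ _) (dd 0).1 (hh 0).1
    (fun x y μ hμ => by
      have := c2 m le_rfl x y μ (by
        simp only [← Int.cast_smul_eq_zsmul ℚ] at hμ
        exact MvPolynomial.support_smul hμ)
      rw [← this]
      congr 1
      simp only [pot, Function.comp, eW]
      rfl)
    (ren S η D.X D.O _ _ eX eO e1 e2)
    (by
      ext1 x z
      have u1 : ∀ y, d 0 x y * (((Perm.sign y : ℤ) ^ (m + 1) * η z) • prodM P m y z) =
          ((-1) ^ (m + 1) * ((Perm.sign x : ℤ) ^ (m + 1) * η z)) • (d 0 x y * prodM P m y z) := by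
        intro y
        by_cases h : d 0 x y = 0
        · simp [h]
        · rw [odd S _ _ x y h, mul_smul_comm, neg_pow, mul_assoc]
      have u2 : ∀ y, (((Perm.sign x : ℤ) ^ (m + 1) * η y) • prodM P m x y) *
          ((η y * η z) • d m y z) =
          ((Perm.sign x : ℤ) ^ (m + 1) * η z) • (prodM P m x y * d m y z) := by
        intro y
        rw [smul_mul_smul_comm]
        congr 1
        rcases e1 y with u | u <;> simp [u]
      have u3 := congrFun (congrFun (c1 m) x) z
      rw [Matrix.smul_apply, Matrix.mul_apply, Matrix.mul_apply] at u3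
      rw [Matrix.add_apply, Matrix.mul_apply, Matrix.mul_apply]
      simp only [u1, u2, ← smul_sum, u3, smul_smul, ← add_smul]
      rw [show (-1) ^ (m + 1) * ((Perm.sign x : ℤ) ^ (m + 1) * η z) * (-1) ^ m +
        (Perm.sign x : ℤ) ^ (m + 1) * η z = 0 by
          rcases neg_one_pow_eq_or ℤ m with u | u <;> simp [pow_succ (-1 : ℤ), u]]
      simp)
    hT a
  rw [ZMod.card] at key
  refine ⟨key.1, fun h => ?_⟩
  rw [← key.2 h]
  refine sum_congr rfl fun x _ => ?_
  have : (fun s => mat fun z i j => MvPolynomial.constantCoeff (D.ps S s z i j)) =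
      fun s => (P s).map (MvPolynomial.constantCoeff : Rg N →+* ℚ) := by
    funext s
    ext y z
    simp only [hP, mat, Matrix.map_apply, map_sum, apply_ite MvPolynomial.constantCoeff, map_zero]
  rw [this, ← prodM_map, map_zsmul, Matrix.map_apply, zsmul_eq_mul]
  push_cast
  simp only [mulLeft_symm_apply]
  ring

end Pool.Agent.P.MP_8a22ed_gt.GH
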