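import Pool.Agent.P.MP_8a22ed_gt.GH.St

/-! A trace formula for a complex whose homology has dimension at most one. -/

namespace Pool.Agent.P.MP_8a22ed_gt.GH

open Finset Matrix Equiv

namespace Lef

variable {V : Type} [AddCommGroup V] [Module ℚ V]

theorem exists_inv (d : V →ₗ[ℚ] V) : ∃ h : V →ₗ[ℚ] V, d * h * d = d := by
  obtain ⟨g, hg⟩ := LinearMap.exists_rightInverse_of_surjective d.rangeRestrict
    (LinearMap.range_rangeRestrict d)
  obtain ⟨p, hp⟩ := LinearMap.exists_leftInverse_of_injective (LinearMap.range d).subtype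
    (Submodule.ker_subtype _)
  refine ⟨g ∘ₗ p, LinearMap.ext fun v => ?_⟩
  have h1 : p (d v) = ⟨d v, LinearMap.mem_range_self d v⟩ :=
    LinearMap.congr_fun hp ⟨d v, LinearMap.mem_range_self d v⟩
  have h2 := congrArg Subtype.val (LinearMap.congr_fun hg ⟨d v, LinearMap.mem_range_self d v⟩)
  simp only [Module.End.mul_apply, LinearMap.comp_apply, h1]
  exact h2

theorem trace_proj [FiniteDimensional ℚ V] (d h f : V →ₗ[ℚ] V) (hd : d * d = 0)
    (hf : f * d = -(d * f)) :
    LinearMap.trace ℚ V f = LinearMap.trace ℚ V (f * ((1 - d * h) * (1 - h * d))) := by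
  have e1 : f * ((1 - d * h) * (1 - h * d)) =
      f - (f * d) * h - (f * h) * d + (f * d * h * h) * d := by noncomm_ring
  have e2 : d * (f * d * h * h) = 0 := by
    have : d * (f * d * h * h) = d * (f * d) * h * h := by noncomm_ring
    rw [this, hf]
    have : d * -(d * f) * h * h = -((d * d) * f * h * h) := by noncomm_ring
    rw [this, hd]
    simp
  rw [e1, map_add, map_sub, map_sub, LinearMap.trace_mul_comm ℚ (f * d * h * h) d, e2,
    LinearMap.trace_mul_comm ℚ (f * h) d, hf]
  have : -(d * f) * h = -(d * (f * h)) := by noncomm_ring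
  rw [this, map_neg, map_zero]
  ring

end Lef

theorem st_lef : S_lef := by
  intro V _ _ _ d ψ ε hd hψ hε hεε hH
  obtain ⟨h, hh⟩ := Lef.exists_inv d
  set P : V →ₗ[ℚ] V := (1 - d * h) * (1 - h * d) with hP
  have hdd : ∀ w, d (d w) = 0 := fun w => LinearMap.congr_fun hd w
  have hdhd : ∀ w, d (h (d w)) = d w := fun w => LinearMap.congr_fun hh w
  have hPv : ∀ v, P v = (v - h (d v)) - d (h (v - h (d v))) := fun v => rfl
  have hdP : ∀ v, d (P v) = 0 := fun v => by
    rw [hPv, map_sub, hdd, map_sub, hdhd]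
    simp
  have hPz : ∀ z, d z = 0 → P z = z - d (h z) := fun z hz => by
    rw [hPv, hz]
    simp
  have hPd : ∀ w, P (d w) = 0 := fun w => by
    rw [hPz _ (hdd w), hdhd, sub_self]
  have hPP : ∀ v, P (P v) = P v := fun v => by
    rw [hPz _ (hdP v), hPv, map_sub h (v - h (d v)), map_sub d (h (v - h (d v))), hdhd]
    simp
  have tε := Lef.trace_proj d h ε hd hε
  have tψ := Lef.trace_proj d h ψ hd hψ
  rw [← hP] at tε tψ
  by_cases h0 : P = 0
  · rw [h0, mul_zero, map_zero] at tε tψ
    exact ⟨Or.inl tε, fun _ => tψ⟩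
  obtain ⟨y, hy⟩ : ∃ y, P y ≠ 0 := by
    by_contra hc
    push Not at hc
    exact h0 (LinearMap.ext hc)
  set z := P y with hz
  have hzz : P z = z := hPP y
  have hdz : d z = 0 := hdP y
  have hr : ∀ v, ∃ c : ℚ, P v = c • z := fun v => by
    obtain ⟨α, β, w, hαβ, hw⟩ := hH (P v) z (hdP v) hdz
    have h1 := hPd w
    rw [hw, map_add, map_smul, map_smul, hPP, hzz] at h1
    have hα : α ≠ 0 := by
      rintro rfl
      rw [zero_smul, zero_add, smul_eq_zero] at h1
      rcases h1 with h1 | h1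
      · simp [h1] at hαβ
      · exact hy h1
    refine ⟨-(β / α), ?_⟩
    have h2 : α • P v = -(β • z) := eq_neg_of_add_eq_zero_left h1
    calc P v = α⁻¹ • α • P v := by rw [smul_smul, inv_mul_cancel₀ hα, one_smul]
      _ = -(β / α) • z := by rw [h2, smul_neg, smul_smul, neg_smul, div_eq_inv_mul]
  obtain ⟨φ, hφ⟩ : ∃ φ : Module.Dual ℚ V, φ z = 1 := by
    have : ¬ ∀ φ : Module.Dual ℚ V, φ z = 0 := fun hc =>
      hy ((Module.forall_dual_apply_eq_zero_iff ℚ z).1 hc)
    push Not at this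
    obtain ⟨φ, hφ⟩ := this
    exact ⟨(φ z)⁻¹ • φ, by simp [hφ]⟩
  have hl : ∀ v, P v = φ (P v) • z := fun v => by
    obtain ⟨c, hc⟩ := hr v
    rw [hc, map_smul, hφ, smul_eq_mul, mul_one]
  have he : ε * P = (φ ∘ₗ P).smulRight (ε z) := LinearMap.ext fun v => by
    rw [Module.End.mul_apply, LinearMap.smulRight_apply, LinearMap.comp_apply, ← map_smul, ← hl]
  rw [he, LinearMap.trace_smulRight, LinearMap.comp_apply] at tε
  set β := φ (P (ε z)) with hβ
  have hεd : ∀ w, ε (d w) = -d (ε w) := fun w => LinearMap.congr_fun hε w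
  have hdε : d (ε z) = 0 := by
    have := hεd z
    rw [hdz, map_zero] at this
    exact neg_eq_zero.1 this.symm
  have h1 : ε z = β • z + d (h (ε z)) := by
    rw [hβ, ← hl, hPz _ hdε, sub_add_cancel]
  have h2 : ε (ε z) = z := LinearMap.congr_fun hεε z
  have h3 : z = (β * β) • z := by
    have h4 := congrArg (fun x => P (ε x)) h1
    simp only [h2, map_add, map_smul, hεd, map_neg, hPd, neg_zero, add_zero, hzz] at h4
    rw [hl (ε z), ← hβ, smul_smul] at h4
    exact h4
  have h5 : β * β = 1 := by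
    have h6 := congrArg φ h3
    rw [map_smul, hφ, smul_eq_mul, mul_one] at h6
    exact h6.symm
  rw [tε]
  rcases mul_self_eq_one_iff.1 h5 with h7 | h7
  · exact ⟨Or.inr (Or.inl h7), fun h8 => by rw [h7] at h8; norm_num at h8⟩
  · exact ⟨Or.inr (Or.inr h7), fun h8 => by rw [h7] at h8; norm_num at h8⟩

end Pool.Agent.P.MP_8a22ed_gt.GH
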