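import Pool.Agent.P.MP_8a22ed_gt.GH.St

/-! Two potentials along a closed path of pentagons. -/

namespace Pool.Agent.P.MP_8a22ed_gt.GH

open Equiv Finset

namespace Psi

variable {N n q : ℕ} [NeZero N] [NeZero n]

theorem tele (h1 : S_pot) (h2 : S_pi) {D : PD N n q} {x : St N} {γ : ℕ → ZMod N × ZMod N}
    (hc : Cl D x γ) {M : Type} [AddCommGroup M] (g : ZMod N → ZMod N → M) :
    pot g x - pot (g ∘ pp N q (n * (q - 1))) (walk x γ (n * (q - 1))) =
      ∑ s ∈ range (n * (q - 1)),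
        (∑ c with ico (γ s).1 c (γ s).2 ∧ c ≠ ci N q s - 1 ∧ c ≠ ci N q s,
          (g (pp N q s c) (walk x γ s (γ s).2) - g (pp N q s c) (walk x γ s (γ s).1)) +
        (g (pp N q s (ci N q s - 1)) (walk x γ s (γ s).2) -
          g (pp N q s (ci N q s)) (walk x γ s (γ s).1)) -
        if (γ s).2.val < (γ s).1.val then
          ∑ c, g c (walk x γ s (γ s).2) - ∑ c, g c (walk x γ s (γ s).1) else 0) := by
  refine (sum_range_sub' (fun s => pot (g ∘ pp N q s) (walk x γ s)) _).symm.trans ?_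
  refine sum_congr rfl fun s hs => ?_
  have hs := mem_range.1 hs
  have a := hc.1 s hs
  have b := (h1 N M (g ∘ pp N q s) (walk x γ s) _ _ a.1).2 _
    ((h2 N n q D.hN D.hq).1 s hs).2.2.2.1 a.2.1
  rw [← Equiv.sum_comp (pp N q s) fun c => g c (walk x γ s (γ s).2),
    ← Equiv.sum_comp (pp N q s) fun c => g c (walk x γ s (γ s).1), ← sum_sub_distrib]
  exact b

theorem neg_val (a : ZMod N) : (-a - 1).val + a.val + 1 = N := by
  have h := ZMod.val_lt a
  have : -a - 1 = ((N - 1 - a.val : ℕ) : ZMod N) := by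
    rw [Nat.cast_sub (by omega), Nat.cast_sub (by omega)]; simp; ring
  rw [this, ZMod.val_cast_of_lt (by omega)]; omega

theorem val_step {u a v : ZMod N} (h : ¬ ico u a v) :
    (v - a - 1).val = (u - a - 1).val + (v - u).val := by
  have h1 := neg_val (a - u)
  rw [neg_sub] at h1
  rw [ico] at h
  rw [← ZMod.val_add_of_lt (by omega)]
  congr 1; ring

theorem val_mid {u h v : ZMod N} (H : ico u h v) : (v - h).val + (h - u).val = (v - u).val := by
  have := ZMod.val_lt u
  have := ZMod.val_lt h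
  have := ZMod.val_lt v
  rw [ico_iff] at H
  simp only [val_sub_ite]
  split_ifs <;> omega

theorem wrap (i j : ZMod N) : ico i (-1) j ↔ j.val < i.val := by
  have := ZMod.val_lt i
  have := ZMod.val_lt j
  have := neg_val (0 : ZMod N)
  rw [neg_zero, zero_sub, ZMod.val_zero] at this
  rw [ico_iff]; omega

theorem width {i j i0 : ZMod N} (h : i ≠ j) (h0 : i = i0 ∨ j = i0) (a : ℤ) :
    ∑ c, (if ico i c j then a else 0) =
      ∑ _c with ico i _c j ∧ _c ≠ i0 - 1 ∧ _c ≠ i0, a + a := by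
  have e1 : ico i (j - 1) j := by
    have e : (j - i).val ≠ 0 := fun e => h (sub_eq_zero.1 ((ZMod.val_eq_zero _).1 e)).symm
    have := ZMod.val_lt (j - i)
    have e3 : j - 1 - i = ((j - i).val - 1 : ℕ) := by
      rw [Nat.cast_sub (by omega)]; simp; ring
    rw [ico, e3, ZMod.val_cast_of_lt (by omega)]; omega
  have e2 : ico i i j := by
    have e : (j - i).val ≠ 0 := fun e => h (sub_eq_zero.1 ((ZMod.val_eq_zero _).1 e)).symm
    rw [ico, sub_self, ZMod.val_zero]; omega
  have e3 : ¬ ico i j j := lt_irrefl _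
  have e4 : ¬ ico i (i - 1) j := by
    have := neg_val (0 : ZMod N)
    have := ZMod.val_lt (j - i)
    rw [ico, show i - 1 - i = -0 - 1 by ring]; simp only [ZMod.val_zero] at *; omega
  rw [← sum_filter]
  rcases h0 with rfl | rfl
  · rw [← sum_erase_add _ _ (mem_filter.2 ⟨mem_univ i, e2⟩)]
    congr 2
    ext c
    simp only [mem_erase, mem_filter, mem_univ, true_and]
    exact ⟨fun ⟨a, b⟩ => ⟨b, fun e => e4 (e ▸ b), a⟩, fun ⟨a, _, b⟩ => ⟨b, a⟩⟩
  · rw [← sum_erase_add _ _ (mem_filter.2 ⟨mem_univ (j - 1), e1⟩)]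
    congr 2
    ext c
    simp only [mem_erase, mem_filter, mem_univ, true_and]
    exact ⟨fun ⟨a, b⟩ => ⟨b, a, fun e => e3 (e ▸ b)⟩, fun ⟨a, b, _⟩ => ⟨b, a⟩⟩

end Psi

open Psi

theorem st_psi (h1 : S_pot) (h2 : S_pi) (h3 : S_grid) (h4 : S_end) (h5 : S_cls) : S_psi := by
  intro N n q _ _ D x γ hc hl hx
  obtain ⟨-, -, mk, -, sW, -⟩ := h3 N n q D
  obtain ⟨-, -, eW, eL, eh⟩ := h4 N n q D
  have cls := h5 N n q D.hN x γ hc.2
  set m := n * (q - 1) with hm
  set g : ZMod N → ZMod N → ZMod q := fun c r => ((c.val % q : ℕ) : ZMod q) * (D.W c r : ZMod q)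
    with hg
  have t := tele h1 h2 hc g
  have xe : ∀ p, walk x γ m p + n = x p := fun p => congrArg (fun f : St N => f p) hc.2
  have g1 : ∀ c r, g (pp N q m c) r = g c (r + n) - D.W c (r + n) := by
    intro c r
    simp only [hg, eW, eL]; ring
  have G1 : ∀ r, ∑ c, g c (r + n) = ∑ c, g c r - D.l := by
    intro r
    rw [← Equiv.sum_comp (pp N q m) fun c => g c r]
    simp only [g1, sum_sub_distrib, ← Int.cast_sum, sW]
    push_cast; ring
  have G2 : ∀ (j : ℕ) r, ∑ c, g c (r + (n * j : ℕ)) = ∑ c, g c r - j * D.l := by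
    intro j r
    induction j with
    | zero => simp
    | succ j ih =>
      rw [Nat.mul_succ, Nat.cast_add, ← add_assoc, G1, ih]; push_cast; ring
  have e : pot g x - pot (g ∘ pp N q m) (walk x γ m) = (pot D.W x : ℤ) := by
    simp only [pot, Function.comp, g1, xe, sum_sub_distrib]
    push_cast; ring
  have z : ((∑ s ∈ range m, if ico (γ s).1 (-1) (γ s).2 then ht x γ s / n else 0 : ℕ) : ZMod q) *
      D.l = 0 := by
    rw [← (ZMod.intCast_zmod_eq_zero_iff_dvd _ _).2 hx, ← e, t, Nat.cast_sum, sum_mul]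
    refine sum_congr rfl fun s hs => ?_
    have hs := mem_range.1 hs
    obtain ⟨-, -, -, a4, a5, a6, a7, a8⟩ := hc.1 s hs
    simp only [Function.comp] at a4 a5 a6 a7 a8
    obtain ⟨j, hj⟩ := cls s hs
    have b1 := mk (pp N q s (ci N q s - 1)) (D.hh s) (walk x γ s (γ s).2)
    have b2 := mk (pp N q s (ci N q s)) (walk x γ s (γ s).1) (D.hh s)
    rw [if_neg a5, if_neg a6, (eh s hs).1, sub_zero, sub_zero] at b1
    rw [if_neg a7, if_neg a8, (eh s hs).2.1, sub_zero, zero_sub, neg_eq_zero] at b2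
    have b3 : walk x γ s (γ s).2 = walk x γ s (γ s).1 + (n * j : ℕ) := by
      rw [← hj, ht]; simp
    rw [sum_eq_zero, hj, Nat.mul_div_cancel_left _ (Nat.pos_of_ne_zero (NeZero.ne n))]
    · simp only [wrap]
      nth_rw 2 [b3]
      rw [G2]
      simp only [hg, b1, b2]
      split_ifs <;> simp
    · intro c hc'
      obtain ⟨c1, c2, c3⟩ := (mem_filter.1 hc').2
      have b := mk (pp N q s c) (walk x γ s (γ s).1) (walk x γ s (γ s).2)
      rw [if_neg (a4 c c1 c2 c3).1, if_neg (a4 c c1 c2 c3).2, sub_zero, sub_eq_zero] at b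
      simp only [hg, b, sub_self]
  have z2 : (q : ℤ) ∣
      (∑ s ∈ range m, if ico (γ s).1 (-1) (γ s).2 then ht x γ s / n else 0 : ℕ) :=
    hl.symm.dvd_of_dvd_mul_right ((ZMod.intCast_zmod_eq_zero_iff_dvd _ _).1 (by
      rw [Int.cast_mul, Int.cast_natCast]; exact z))
  have z3 : Ht x γ m (-1) =
      (∑ s ∈ range m, if ico (γ s).1 (-1) (γ s).2 then ht x γ s / n else 0) * n := by
    rw [Ht, sum_mul]
    refine sum_congr rfl fun s hs => ?_
    split_ifs
    · exact (Nat.div_mul_cancel (cls s (mem_range.1 hs))).symm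
    · simp
  rw [z3]
  exact D.hN.dvd.trans (Nat.mul_dvd_mul_right (Int.natCast_dvd_natCast.1 z2) n)

theorem st_area (h1 : S_pot) (h2 : S_pi) (h3 : S_grid) (h4 : S_end) : S_area := by
  intro N n q _ _ D x γ hc
  obtain ⟨bX, -⟩ := h3 N n q D
  obtain ⟨eX, -, -, -, eh⟩ := h4 N n q D
  have sk := (h2 N n q D.hN D.hq).2.2.2
  set m := n * (q - 1) with hm
  set g : ZMod N → ZMod N → ℤ := fun c r => -((r - D.X c - 1).val : ℤ) with hg
  have t := tele h1 h2 hc g
  have xe : ∀ p, walk x γ m p + n = x p := fun p => congrArg (fun f : St N => f p) hc.2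
  have G : ∀ r, ∑ c, g c r = ∑ w : ZMod N, -(w.val : ℤ) := fun r =>
    Function.Bijective.sum_comp (e := fun c => r - D.X c - 1)
      (((Equiv.subRight 1).bijective.comp (Equiv.subLeft r).bijective).comp bX) fun w => -(w.val : ℤ)
  have e : pot g x - pot (g ∘ pp N q m) (walk x γ m) = 0 := by
    simp only [pot, Function.comp, hg, eX, ← xe, sub_eq_zero]
    refine sum_congr rfl fun p _ => sum_congr rfl fun c _ => ?_
    congr 3; ring
  have z : ∑ s ∈ range m, ((kk q s * n : ℕ) -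
      ∑ c, if ico (γ s).1 c (γ s).2 then (ht x γ s : ℤ) else 0) = 0 := by
    refine Eq.trans (sum_congr rfl fun s hs => ?_) (t.symm.trans e)
    have hs := mem_range.1 hs
    obtain ⟨a1, a2, a3, a4, a5, -, a7, -⟩ := hc.1 s hs
    have b1 := val_step a5
    have b2 := val_step a7
    have b3 := val_mid a3
    have b4 := (eh s hs).2.2
    have b5 : ∑ c with ico (γ s).1 c (γ s).2 ∧ c ≠ ci N q s - 1 ∧ c ≠ ci N q s,
        (g (pp N q s c) (walk x γ s (γ s).2) - g (pp N q s c) (walk x γ s (γ s).1)) =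
        -∑ _c with ico (γ s).1 _c (γ s).2 ∧ _c ≠ ci N q s - 1 ∧ _c ≠ ci N q s,
          (ht x γ s : ℤ) := by
      rw [← sum_neg_distrib]
      refine sum_congr rfl fun c hc' => ?_
      obtain ⟨c1, c2, c3⟩ := (mem_filter.1 hc').2
      have b := val_step (a4 c c1 c2 c3).1
      simp only [hg, ht, Function.comp] at b ⊢
      omega
    rw [width a1 a2, b5, G, G, sub_self, ite_self]
    simp only [hg, ht, Function.comp] at b1 b2 ⊢
    omega
  rw [sum_sub_distrib, sub_eq_zero, sum_comm, ← Nat.cast_sum, ← sum_mul] at z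
  have z2 : ∑ c, Ht x γ m c = (∑ s ∈ range m, kk q s) * n := by
    apply Nat.cast_injective (R := ℤ)
    rw [z]; simp [Ht]
  rw [z2, ← mul_assoc, sk]; ring

end Pool.Agent.P.MP_8a22ed_gt.GH
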