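import Pool.Agent.P.MP_8a22ed_gt.GH.St

/-! The relations in the spin extension of the symmetric group. -/

namespace Pool.Agent.P.MP_8a22ed_gt.GH

open Equiv Equiv.Perm Finset CliffordAlgebra

namespace SpinP

variable {N : ℕ} [NeZero N]

/-- The generators of the Clifford algebra. -/
noncomputable def ev (i : ZMod N) : Cf N := CliffordAlgebra.ι _ (Pi.single i 1)

theorem tau_eq (i j : ZMod N) : tau i j = ev i - ev j := by simp [tau, ev]

theorem ev_anti (i j : ZMod N) : ev i * ev j + ev j * ev i = if i = j then -1 else 0 := by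
  rw [ev, ev, ι_mul_ι_add_swap]
  have : QuadraticMap.polar (QuadraticMap.weightedSumSquares ℚ fun _ : ZMod N => (-1 / 2 : ℚ))
      (Pi.single i 1) (Pi.single j 1) = if i = j then -1 else 0 := by
    simp only [QuadraticMap.polar, QuadraticMap.weightedSumSquares_apply, ← sum_sub_distrib]
    rw [sum_eq_single i]
    · by_cases h : i = j
      · subst h; simp; norm_num
      · simp [h]
    · intro k _ hk; simp [hk]
    · simp
  rw [this]
  split_ifs <;> simp

theorem tau_ev {i j : ZMod N} (h : i ≠ j) (k : ZMod N) :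
    tau i j * ev k = -(ev (swap i j k) * tau i j) := by
  have a := ev_anti i i
  have b := ev_anti j j
  rw [if_pos rfl] at a b
  have hs : ev i * ev i = ev j * ev j := by
    have h2 : (2 : ℚ) • (ev i * ev i) = (2 : ℚ) • (ev j * ev j) := by
      rw [two_smul, two_smul, a, b]
    exact smul_right_injective _ two_ne_zero h2
  rw [tau_eq]
  by_cases hi : k = i
  · subst hi
    rw [swap_apply_left, sub_mul, mul_sub, hs]; abel
  · by_cases hj : k = j
    · subst hj
      rw [swap_apply_right, sub_mul, mul_sub, hs]; abel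
    · have c := ev_anti i k
      have d := ev_anti j k
      rw [if_neg (Ne.symm hi)] at c
      rw [if_neg (Ne.symm hj)] at d
      rw [swap_apply_of_ne_of_ne hi hj, sub_mul, mul_sub, eq_neg_of_add_eq_zero_left c,
        eq_neg_of_add_eq_zero_left d]
      abel

theorem tau_neg (i j : ZMod N) : tau j i = -tau i j := by rw [tau_eq, tau_eq, neg_sub]

theorem tau_sq {i j : ZMod N} (h : i ≠ j) : tau i j * tau i j = -1 := by
  have a := ev_anti i i
  have b := ev_anti j j
  have c := ev_anti i j
  rw [if_pos rfl] at a b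
  rw [if_neg h] at c
  have h2 : (2 : ℚ) • (tau i j * tau i j) = (2 : ℚ) • (-1 : Cf N) := by
    rw [two_smul, two_smul, tau_eq]
    calc _ = (ev i * ev i + ev i * ev i) + (ev j * ev j + ev j * ev j) -
        (ev i * ev j + ev j * ev i) - (ev i * ev j + ev j * ev i) := by noncomm_ring
      _ = _ := by rw [a, b, c]; simp
  exact smul_right_injective _ two_ne_zero h2

theorem tau_tau {i j : ZMod N} (h : i ≠ j) (k l : ZMod N) :
    tau i j * tau k l = -(tau (swap i j k) (swap i j l) * tau i j) := by
  rw [tau_eq k, tau_eq (swap i j k), mul_sub, sub_mul, tau_ev h, tau_ev h]; abel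

theorem step {S : Sg N} {ρ : St N → Cf N} (hρ : Spin S ρ) (x : St N) {i j : ZMod N}
    (h : i ≠ j) : ρ (x * swap i j) = S x i j • (ρ x * tau i j) := by
  obtain ⟨s1, s2⟩ := hρ.2 x i j h
  rw [s2, smul_smul]; rcases s1 with u | u <;> simp [u]

end SpinP

open SpinP in
theorem st_spin : S_spin := by
  intro N _
  refine ⟨fun i j h => ⟨tau_sq h, tau_neg i j, tau_tau h⟩, fun S ρ hρ => ?_⟩
  have hu : ∀ x, IsUnit (ρ x) := by
    intro x
    induction x using swap_induction_on' with
    | one => rw [hρ.1]; exact isUnit_one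
    | mul_swap f a b hab ih =>
      have ht : IsUnit (tau a b) :=
        ⟨⟨tau a b, -tau a b, by simp [tau_sq hab], by simp [tau_sq hab]⟩, rfl⟩
      rw [step hρ f hab]
      rcases (hρ.2 f a b hab).1 with u | u <;> simpa [u] using ih.mul ht
  refine ⟨hu, fun x e e' h => ?_, fun x y => ?_, fun x => ?_⟩
  · have h1 : ((e - e' : ℤ) : ℚ) • ρ x = 0 := by
      rw [Int.cast_smul_eq_zsmul, sub_smul, h, sub_self]
    have h2 := (smul_eq_zero.1 h1).resolve_right (hu x).ne_zero
    exact sub_eq_zero.1 (by exact_mod_cast h2)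
  · induction y using swap_induction_on' with
    | one => exact ⟨1, Or.inl rfl, by simp [hρ.1]⟩
    | mul_swap f a b hab ih =>
      obtain ⟨e, he, H⟩ := ih
      refine ⟨S f a b * e * S (x * f) a b, ?_, ?_⟩
      · rcases (hρ.2 f a b hab).1 with u | u <;> rcases (hρ.2 (x * f) a b hab).1 with v | v <;>
          rcases he with rfl | rfl <;> simp [u, v]
      · rw [step hρ f hab, mul_smul_comm, ← mul_assoc, H, smul_mul_assoc, (hρ.2 _ a b hab).2,
          smul_smul, smul_smul, mul_assoc x]
  · induction x using swap_induction_on' with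
    | one => simp [hρ.1]
    | mul_swap f a b hab ih =>
      intro i j
      rw [step hρ f hab, smul_mul_assoc, mul_assoc, tau_tau hab, mul_neg, ← mul_assoc, ih,
        Perm.sign_mul, sign_swap hab]
      simp only [mul_smul_comm, smul_mul_assoc, mul_assoc, Units.val_mul, Units.val_neg,
        Units.val_one, mul_apply, mul_neg, mul_one, smul_neg, neg_smul]
      rw [smul_comm]

theorem st_rel (h : S_spin) : S_rel := by
  intro N _ S hS
  obtain ⟨ρ, hρ⟩ : ∃ ρ, Spin S ρ := hS
  obtain ⟨ht, h2⟩ := h N
  obtain ⟨-, hq, -, -⟩ := h2 S ρ hρ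
  have two : ∀ x i j k l, i ≠ j → k ≠ l → ρ x * (tau i j * tau k l) =
      (S x i j * S (x * swap i j) k l) • ρ (x * (swap i j * swap k l)) := by
    intro x i j k l a b
    rw [← mul_assoc, (hρ.2 x i j a).2, smul_mul_assoc, (hρ.2 _ k l b).2, smul_smul, mul_assoc x]
  have cmp : ∀ x i j k l i' j' k' l', i ≠ j → k ≠ l → i' ≠ j' → k' ≠ l' →
      swap i j * swap k l = swap i' j' * swap k' l' → tau i j * tau k l = -(tau i' j' * tau k' l') →
      S x i j * S (x * swap i j) k l = -(S x i' j' * S (x * swap i' j') k' l') := by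
    intro x i j k l i' j' k' l' a b a' b' e1 e2
    apply hq (x * (swap i j * swap k l))
    rw [← two x i j k l a b, e2, mul_neg, two x i' j' k' l' a' b', e1, neg_smul]
  have conj : ∀ i j k l : ZMod N,
      swap i j * swap k l = swap (swap i j k) (swap i j l) * swap i j := by
    intro i j k l
    rw [swap_apply_apply]; simp
  have c2 : ∀ x i j k l, i ≠ j → k ≠ l → S x i j * S (x * swap i j) k l =
      -(S x (swap i j k) (swap i j l) * S (x * swap (swap i j k) (swap i j l)) i j) :=
    fun x i j k l a b => cmp x _ _ _ _ _ _ _ _ a b ((swap i j).injective.ne b) a (conj i j k l)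
      ((ht i j a).2.2 k l)
  have flip : ∀ x i j, i ≠ j → S x j i = -S x i j := by
    intro x i j a
    apply hq (x * swap i j)
    rw [neg_smul, ← (hρ.2 x i j a).2, swap_comm, ← (hρ.2 x j i a.symm).2, (ht i j a).2.1, mul_neg]
  have vert : ∀ x i j, i ≠ j → S x i j * S (x * swap i j) i j = -1 := by
    intro x i j a
    apply hq x
    have := two x i j i j a a
    rw [(ht i j a).1, swap_mul_self, mul_one] at this
    rw [← this]; simp
  refine ⟨fun x i j a => (hρ.2 x i j a).1, vert, fun x i j a => ?_,
    fun x i j k l a b c d e f => ?_, fun x a b c d e f => ?_, fun x a b c d e f => ?_,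
    fun x a b c d e f => ?_, fun x a b c d e f => ?_⟩
  · rw [flip _ i j a, mul_neg, vert x i j a, neg_neg]
  · have := c2 x i j k l a f
    rwa [swap_apply_of_ne_of_ne b.symm d.symm, swap_apply_of_ne_of_ne c.symm e.symm] at this
  · have := c2 x b c a c f e
    rw [swap_apply_of_ne_of_ne d e, swap_apply_right] at this
    rw [this, neg_neg]
  · have := c2 x a b b c d f
    rwa [swap_apply_right, swap_apply_of_ne_of_ne e.symm f.symm] at this
  · have := c2 x a b a c d e
    rwa [swap_apply_left, swap_apply_of_ne_of_ne e.symm f.symm] at this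
  · have := c2 x b c a b f d
    rwa [swap_apply_left, swap_apply_of_ne_of_ne d e] at this

end Pool.Agent.P.MP_8a22ed_gt.GH
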