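import Pool.Agent.P.MP_8a22ed_gt.GH.Defs
import Pool.Agent.P.MP_8a22ed_gt.Main

/-! Internal definitions and the statements of the packages. -/

namespace Pool.Agent.P.MP_8a22ed_gt.GH

open Finset Matrix Equiv

abbrev St (N : ℕ) := Perm (ZMod N)
abbrev Sg (N : ℕ) := St N → ZMod N → ZMod N → ℤ
abbrev Rg (N : ℕ) := MvPolynomial (ZMod N) ℚ

/-- The open cyclic interval. -/
def ioo {N : ℕ} (u v w : ZMod N) : Prop := v ≠ u ∧ ico u v w

instance {N : ℕ} (u v w : ZMod N) : Decidable (ioo u v w) :=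
  inferInstanceAs (Decidable (_ ∧ _))

theorem val_sub_ite {N : ℕ} [NeZero N] (u v : ZMod N) :
    (v - u).val = if u.val ≤ v.val then v.val - u.val else v.val + N - u.val := by
  have hu := ZMod.val_lt u
  have hv := ZMod.val_lt v
  have hd := ZMod.val_lt (v - u)
  have h := ZMod.val_add (v - u) u
  rw [sub_add_cancel] at h
  by_cases h1 : (v - u).val + u.val < N
  · rw [Nat.mod_eq_of_lt h1] at h
    split_ifs <;> omega
  · rw [Nat.mod_eq_sub_mod (by omega), Nat.mod_eq_of_lt (by omega)] at h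
    split_ifs <;> omega

theorem ico_iff {N : ℕ} [NeZero N] (u v w : ZMod N) : ico u v w ↔
    (u.val ≤ v.val ∧ v.val < w.val) ∨ (v.val < w.val ∧ w.val < u.val) ∨
      (w.val < u.val ∧ u.val ≤ v.val) := by
  have hu := ZMod.val_lt u
  have hv := ZMod.val_lt v
  have hw := ZMod.val_lt w
  rw [ico, val_sub_ite, val_sub_ite]
  split_ifs <;> omega

theorem eq_iff_val {N : ℕ} [NeZero N] (u v : ZMod N) : u = v ↔ u.val = v.val :=
  (ZMod.val_injective N).eq_iff.symm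

theorem ioo_iff {N : ℕ} [NeZero N] (u v w : ZMod N) : ioo u v w ↔
    (u.val < v.val ∧ v.val < w.val) ∨ (v.val < w.val ∧ w.val < u.val) ∨
      (w.val < u.val ∧ u.val < v.val) := by
  rw [ioo, ico_iff, Ne, eq_iff_val]
  omega

/-! ### Signs -/

/-- The relations between the signs that the square of the differential needs. -/
structure SignRel {N : ℕ} (S : Sg N) : Prop where
  pm : ∀ x i j, i ≠ j → S x i j = 1 ∨ S x i j = -1
  vert : ∀ x i j, i ≠ j → S x i j * S (x * swap i j) i j = -1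
  hor : ∀ x i j, i ≠ j → S x i j * S (x * swap i j) j i = 1
  four : ∀ x i j k l, i ≠ j → i ≠ k → i ≠ l → j ≠ k → j ≠ l → k ≠ l →
    S x i j * S (x * swap i j) k l = -(S x k l * S (x * swap k l) i j)
  t1 : ∀ x a b c, a ≠ b → a ≠ c → b ≠ c →
    S x a b * S (x * swap a b) b c = -(S x b c * S (x * swap b c) a c)
  t2 : ∀ x a b c, a ≠ b → a ≠ c → b ≠ c →
    S x a b * S (x * swap a b) b c = -(S x a c * S (x * swap a c) a b)
  t3 : ∀ x a b c, a ≠ b → a ≠ c → b ≠ c →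
    S x a b * S (x * swap a b) a c = -(S x b c * S (x * swap b c) a b)
  t4 : ∀ x a b c, a ≠ b → a ≠ c → b ≠ c →
    S x b c * S (x * swap b c) a b = -(S x a c * S (x * swap a c) b c)

abbrev Cf (N : ℕ) [NeZero N] :=
  CliffordAlgebra (QuadraticMap.weightedSumSquares ℚ fun _ : ZMod N => (-1 / 2 : ℚ))

/-- The body of `IsSign`. -/
def Spin {N : ℕ} [NeZero N] (S : Sg N) (ρ : St N → Cf N) : Prop :=
  ρ 1 = 1 ∧ ∀ x i j, i ≠ j →
    (S x i j = 1 ∨ S x i j = -1) ∧ ρ x * tau i j = S x i j • ρ (x * swap i j)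

def S_spin : Prop := ∀ (N : ℕ) [NeZero N],
  (∀ i j : ZMod N, i ≠ j → tau i j * tau i j = -1 ∧ tau j i = -tau i j ∧
    ∀ k l, tau i j * tau k l = -(tau (swap i j k) (swap i j l) * tau i j)) ∧
  ∀ (S : Sg N) (ρ : St N → Cf N), Spin S ρ →
    (∀ x, IsUnit (ρ x)) ∧ (∀ x (e e' : ℤ), e • ρ x = e' • ρ x → e = e') ∧
    (∀ x y, ∃ e : ℤ, (e = 1 ∨ e = -1) ∧ ρ x * ρ y = e • ρ (x * y)) ∧
    ∀ x i j, ρ x * tau i j = (Perm.sign x : ℤ) • (tau (x i) (x j) * ρ x)

def S_rel : Prop := ∀ (N : ℕ) [NeZero N] (S : Sg N), IsSign S → SignRel S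

/-- Non-vacuity (not used by the other packages). -/
def S_ex : Prop := ∀ (N : ℕ) [NeZero N], ∃ S : Sg N, IsSign S

/-! ### The square of a weighted rectangle count -/

/-- Weights: `R p u v` when the circle `p` is the left side of a rectangle between the heights
`u` and `v`, `L p u v` when it is the right side, `μ p u v` when it passes through it. -/
structure Wt (N : ℕ) (B K : Type) [CommRing B] [Ring K] [Algebra B K] where
  R : ZMod N → ZMod N → ZMod N → K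
  L : ZMod N → ZMod N → ZMod N → K
  μ : ZMod N → ZMod N → ZMod N → B
  LR : ∀ p u v, u ≠ v → L p u v * R p u v = algebraMap B K (μ p u v)
  RL : ∀ p u v, u ≠ v → R p u v * L p u v = algebraMap B K (μ p u v)
  RR : ∀ p u v w, ioo u v w → R p u v * R p v w = R p u w
  LL : ∀ p u v w, ioo u v w → L p v w * L p u v = L p u w
  μμ : ∀ p u v w, ioo u v w → μ p u v * μ p v w = μ p u w
  cRR : ∀ p p' u v u' v', p ≠ p' → R p u v * R p' u' v' = R p' u' v' * R p u v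
  cRL : ∀ p p' u v u' v', p ≠ p' → R p u v * L p' u' v' = L p' u' v' * R p u v
  cLL : ∀ p p' u v u' v', p ≠ p' → L p u v * L p' u' v' = L p' u' v' * L p u v

section
variable {N : ℕ} [NeZero N] {B K : Type} [CommRing B] [Ring K] [Algebra B K]

noncomputable def TT (W : Wt N B K) (S : Sg N) (x : St N) (i j : ZMod N) : K :=
  if Emp x i j then ((S x i j : B) * ∏ p with ioo i p j, W.μ p (x i) (x j)) •
    (W.R i (x i) (x j) * W.L j (x i) (x j)) else 0

noncomputable def DD (W : Wt N B K) (S : Sg N) : Matrix (St N) (St N) K := fun x y =>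
  ∑ i, ∑ j, if y = x * swap i j then TT W S x i j else 0

end

def S_four : Prop := ∀ (N : ℕ) [NeZero N] (B K : Type) [CommRing B] [Ring K] [Algebra B K]
  (W : Wt N B K) (S : Sg N), SignRel S → ∀ x i j k l,
  i ≠ j → i ≠ k → i ≠ l → j ≠ k → j ≠ l → k ≠ l →
  TT W S x i j * TT W S (x * swap i j) k l + TT W S x k l * TT W S (x * swap k l) i j = 0

def S_three1 : Prop := ∀ (N : ℕ) [NeZero N] (B K : Type) [CommRing B] [Ring K] [Algebra B K]
  (W : Wt N B K) (S : Sg N), SignRel S → ∀ x a b c, ioo a b c →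
  TT W S x a b * TT W S (x * swap a b) b c + TT W S x b c * TT W S (x * swap b c) a c +
    TT W S x a c * TT W S (x * swap a c) a b = 0

def S_three2 : Prop := ∀ (N : ℕ) [NeZero N] (B K : Type) [CommRing B] [Ring K] [Algebra B K]
  (W : Wt N B K) (S : Sg N), SignRel S → ∀ x a b c, ioo a b c →
  TT W S x a b * TT W S (x * swap a b) a c + TT W S x b c * TT W S (x * swap b c) a b +
    TT W S x a c * TT W S (x * swap a c) b c = 0

def S_ann : Prop := ∀ (N : ℕ) [NeZero N] (B K : Type) [CommRing B] [Ring K] [Algebra B K]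
  (W : Wt N B K) (S : Sg N), SignRel S → 2 ≤ N → (∀ u, ∃ p, W.μ p u (u + 1) = 0) →
  (∀ x a b c, ioo a b c → TT W S x a c * TT W S (x * swap a c) b a = 0 ∧
    TT W S x a c * TT W S (x * swap a c) c b = 0) ∧
  ∀ x i j, TT W S x i j * TT W S (x * swap i j) j i = 0 ∧
    TT W S x i j * TT W S (x * swap i j) i j = if j = i + 1 then
      -(W.R i (x i) (x j) * W.L j (x i) (x j) * (W.R i (x j) (x i) * W.L j (x j) (x i))) else 0

def S_core : Prop := ∀ (N : ℕ) [NeZero N] (B K : Type) [CommRing B] [Ring K] [Algebra B K]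
  (W : Wt N B K) (S : Sg N), SignRel S → 2 ≤ N → (∀ k : K, k + k = 0 → k = 0) →
  (∀ u, ∃ p, W.μ p u (u + 1) = 0) →
  (∀ x : St N, ∑ p, W.R p (x p) (x (p + 1)) * W.L (p + 1) (x p) (x (p + 1)) *
    (W.R p (x (p + 1)) (x p) * W.L (p + 1) (x (p + 1)) (x p)) = 0) →
  DD W S * DD W S = 0

/-! ### Pentagons -/

section
variable {N : ℕ} [NeZero N]

/-- The exchange of the two columns next to the circle `i0`. -/
def sw (i0 : ZMod N) : St N := swap (i0 - 1) i0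

noncomputable def rect (S : Sg N) (X O : ZMod N → ZMod N) (x : St N) (i j : ZMod N) : Rg N :=
  if Emp x i j then S x i j • ∏ c with ico i c j, cw X O c (x i) (x j) else 0

noncomputable def pe (X O : ZMod N → ZMod N) (i0 h u v : ZMod N) : Rg N :=
  if ico u h v then cw X O (i0 - 1) h v * cw X O i0 u h else 0

noncomputable def pent (S : Sg N) (X O : ZMod N → ZMod N) (i0 h : ZMod N) (x : St N)
    (i j : ZMod N) : Rg N :=
  if Emp x i j ∧ (i = i0 ∨ j = i0) then (S x i j * if j = i0 then 1 else -1) •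
    ((∏ c with ico i c j ∧ c ≠ i0 - 1 ∧ c ≠ i0, cw X O c (x i) (x j)) * pe X O i0 h (x i) (x j))
  else 0

/-- The matrix of a count of swaps. -/
def mat {M : Type} [AddCommMonoid M] (t : St N → ZMod N → ZMod N → M) :
    Matrix (St N) (St N) M := fun x y => ∑ i, ∑ j, if y = x * swap i j then t x i j else 0

noncomputable def Pm (S : Sg N) (X O : ZMod N → ZMod N) (i0 h : ZMod N) :
    Matrix (St N) (St N) (Rg N) := mat (pent S X O i0 h)

theorem bd_eq (S : Sg N) (X O : ZMod N → ZMod N) : bd S X O = mat (rect S X O) := by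
  funext x y
  simp only [bd, mat, rect, ite_and]

noncomputable def sR (X O : ZMod N → ZMod N) (i0 h p u v : ZMod N) :
    Matrix (Fin 2) (Fin 2) (Rg N) :=
  if p = i0 then !![cw X O i0 u v, -pe X O i0 h u v; 0, cw X O (i0 - 1) u v]
  else if p = i0 - 1 then 1 else algebraMap (Rg N) _ (cw X O p u v)

noncomputable def sL (X O : ZMod N → ZMod N) (i0 h p u v : ZMod N) :
    Matrix (Fin 2) (Fin 2) (Rg N) :=
  if p = i0 then !![cw X O (i0 - 1) u v, pe X O i0 h u v; 0, cw X O i0 u v] else 1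

noncomputable def sM (X O : ZMod N → ZMod N) (i0 p u v : ZMod N) : Rg N :=
  if p = i0 then cw X O (i0 - 1) u v * cw X O i0 u v else if p = i0 - 1 then 1 else cw X O p u v

end

def S_wt : Prop := ∀ (N : ℕ) [NeZero N] (X O : ZMod N → ZMod N) (i0 h : ZMod N),
  ∃ W : Wt N (Rg N) (Matrix (Fin 2) (Fin 2) (Rg N)),
    W.R = sR X O i0 h ∧ W.L = sL X O i0 h ∧ W.μ = sM X O i0

def S_hv : Prop := ∀ (N : ℕ) [NeZero N] (X O : ZMod N → ZMod N) (i0 h : ZMod N), 2 ≤ N →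
  Function.Surjective X → (∀ u, ∃ p, sM X O i0 p u (u + 1) = 0) ∧
  ∀ x : St N, ∑ p, sR X O i0 h p (x p) (x (p + 1)) * sL X O i0 h (p + 1) (x p) (x (p + 1)) *
    (sR X O i0 h p (x (p + 1)) (x p) * sL X O i0 h (p + 1) (x (p + 1)) (x p)) = 0

def S_ent : Prop := ∀ (N : ℕ) [NeZero N] (S : Sg N) (X O : ZMod N → ZMod N) (i0 h : ZMod N)
  (W : Wt N (Rg N) (Matrix (Fin 2) (Fin 2) (Rg N))), 2 ≤ N →
  W.R = sR X O i0 h → W.L = sL X O i0 h → W.μ = sM X O i0 → ∀ x i j,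
  TT W S x i j = !![rect S X O x i j, pent S X O i0 h x i j;
    0, rect S (X ∘ sw i0) (O ∘ sw i0) x i j]

def S_dd : Prop := ∀ (N : ℕ) [NeZero N] (S : Sg N) (X O : ZMod N → ZMod N) (i0 h : ZMod N),
  2 ≤ N → SignRel S → Function.Surjective X → bd S X O * bd S X O = 0 ∧
  bd S X O * Pm S X O i0 h + Pm S X O i0 h * bd S (X ∘ sw i0) (O ∘ sw i0) = 0

/-! ### Gradings -/

/-- The potential of a family of column functions. -/
def pot {N : ℕ} [NeZero N] {M : Type} [AddCommGroup M] (g : ZMod N → ZMod N → M) (x : St N) : M :=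
  ∑ p, ∑ c : ZMod N with c.val < p.val, g c (x p)

def S_pot : Prop := ∀ (N : ℕ) [NeZero N] (M : Type) [AddCommGroup M] (g : ZMod N → ZMod N → M)
  (x : St N) (i j : ZMod N), i ≠ j →
  (pot g x - pot g (x * swap i j) = ∑ c with ico i c j, (g c (x j) - g c (x i)) -
    if j.val < i.val then ∑ c, (g c (x j) - g c (x i)) else 0) ∧
  ∀ i0, i0 ≠ 0 → (i = i0 ∨ j = i0) → pot g x - pot (g ∘ sw i0) (x * swap i j) =
    ∑ c with ico i c j ∧ c ≠ i0 - 1 ∧ c ≠ i0, (g c (x j) - g c (x i)) +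
      (g (i0 - 1) (x j) - g i0 (x i)) -
      if j.val < i.val then ∑ c, (g c (x j) - g c (x i)) else 0

/-- `g c` is a primitive of the markings `X c - O c`. -/
def Mk {N : ℕ} (X O : ZMod N → ZMod N) (g : ZMod N → ZMod N → ℤ) : Prop :=
  ∀ c u v, g c v - g c u = (if ico u (X c) v then 1 else 0) - (if ico u (O c) v then 1 else 0)

/-- The matrix `M` preserves the degree. -/
def Hom {I σ : Type} (A A' : I → ℤ) (M : Matrix I I (MvPolynomial σ ℚ)) : Prop :=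
  ∀ x y, ∀ m ∈ (M x y).support, A' y - m.degree = A x

def S_hom : Prop := ∀ (N : ℕ) [NeZero N] (S : Sg N) (X O : ZMod N → ZMod N)
  (g : ZMod N → ZMod N → ℤ), Function.Bijective X → Function.Bijective O → Mk X O g →
  Hom (pot g) (pot g) (bd S X O) ∧ ∀ i0 h, i0 ≠ 0 → g (i0 - 1) h = g i0 h →
    Hom (pot g) (pot (g ∘ sw i0)) (Pm S X O i0 h)

/-- The signed indicator of the short interval between the markings at `a` and `b`. -/
def pw {M : ℕ} (a b : ℤ) (r : ZMod M) : ℤ :=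
  if ((r - (min a b : ℤ) - 1).val : ℤ) < |a - b| then (if a ≤ b then 1 else -1) else 0

def S_pw : Prop :=
  (∀ (M : ℕ) [NeZero M] (a b : ℤ), |a - b| < M →
    (∀ u v : ZMod M, pw a b v - pw a b u =
      (if ico u (a : ZMod M) v then 1 else 0) - (if ico u (b : ZMod M) v then 1 else 0)) ∧
    ∑ r : ZMod M, pw a b r = b - a) ∧
  (∀ (M : ℕ) (a b t : ℤ) (r : ZMod M), pw b a r = -pw a b r ∧
    pw (a + t) (b + t) (r + (t : ZMod M)) = pw a b r) ∧
  ∀ (N n q : ℕ) [NeZero N] [NeZero n], N = q * n → ∀ a b : ℤ, |a - b| < n → ∀ r : ZMod N,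
    ∀ k < q, pw (a + k * n) (b + k * n) r =
      if k = (r - (min a b : ℤ) - 1).val / n then pw a b (r.val : ZMod n) else 0

/-! ### Traces -/

def S_lef : Prop := ∀ (V : Type) [AddCommGroup V] [Module ℚ V] [FiniteDimensional ℚ V]
  (d ψ ε : V →ₗ[ℚ] V), d * d = 0 → ψ * d = -(d * ψ) → ε * d = -(d * ε) → ε * ε = 1 →
  (∀ u v, d u = 0 → d v = 0 → ∃ (α β : ℚ) (w : V), (α ≠ 0 ∨ β ≠ 0) ∧ d w = α • u + β • v) →
  (LinearMap.trace ℚ V ε = 0 ∨ LinearMap.trace ℚ V ε = 1 ∨ LinearMap.trace ℚ V ε = -1) ∧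
    (LinearMap.trace ℚ V ε = 0 → LinearMap.trace ℚ V ψ = 0)

/-- The number of monomials of degree `d` in `k` variables. -/
def cnt (k : ℕ) (d : ℤ) : ℤ := if 0 ≤ d then Nat.multichoose k d.toNat else 0

/-- The number of monomials of degree `d` fixed by the permutation `s` of the variables. -/
noncomputable def cinv {σ : Type} [Fintype σ] [DecidableEq σ] (s : σ ≃ σ) (d : ℤ) : ℤ :=
  if 0 ≤ d then ((finsuppAntidiag (univ : Finset σ) d.toNat).filter
    fun m => Finsupp.mapDomain s m = m).card else 0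

def S_tr : Prop := ∀ (I σ : Type) [Fintype I] [DecidableEq I] [Fintype σ] [DecidableEq σ]
  (A sg : I → ℤ) (d d' Q : Matrix I I (MvPolynomial σ ℚ)) (e : I ≃ I) (s : σ ≃ σ),
  (∀ x, sg x = 1 ∨ sg x = -1) → (∀ x y, d x y ≠ 0 → sg y = -sg x) → d * d = 0 → Hom A A d →
  Hom A (A ∘ e) Q → (∀ y z, MvPolynomial.rename s (d' y z) = d (e y) (e z)) →
  d * Q + Q * d' = 0 → Thin A d → ∀ a : ℤ,
  (∑ x, sg x * cnt (Fintype.card σ) (A x - a) = 0 ∨
    ∑ x, sg x * cnt (Fintype.card σ) (A x - a) = 1 ∨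
    ∑ x, sg x * cnt (Fintype.card σ) (A x - a) = -1) ∧
  (∑ x, sg x * cnt (Fintype.card σ) (A x - a) = 0 →
    ∑ x, MvPolynomial.constantCoeff (Q x (e.symm x)) * (cinv s (A x - a) : ℚ) = 0)

/-- The shift of the heights by one period. -/
def sh (N n : ℕ) : St N := Equiv.addRight (n : ZMod N)

def S_cinv : Prop := ∀ (N n q : ℕ) [NeZero N] [NeZero n], N = q * n → ∀ d : ℤ,
  cinv (sh N n) d = if (q : ℤ) ∣ d then cnt n (d / q) else 0

/-- The Euler characteristic in degree `a`. -/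
def Eu {N : ℕ} [NeZero N] (A : St N → ℤ) (a : ℤ) : ℤ :=
  ∑ x : St N, (Perm.sign x : ℤ) * cnt N (A x - a)

def S_euler : Prop := ∀ (N : ℕ) [NeZero N] (X O : ZMod N → ZMod N) (Δ : Polynomial ℤ),
  IsAlex X O Δ → ∃ k δ δ' : ℤ, (δ = 1 ∨ δ = -1) ∧ (δ' = 1 ∨ δ' = -1) ∧ ∀ a : ℤ,
    Eu (gr X O) a = δ' * (1 - fs Δ (a - N - k)) ∧
    Eu (fun x => -gr X O x) (N - a) = δ * fs Δ (a - N - k)

/-! ### The steps -/

/-- The group of columns treated at step `s`. -/
def grp (q s : ℕ) : ℕ := s / (q - 1)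

/-- The place of the special circle inside its group at step `s`. -/
def kk (q s : ℕ) : ℕ := q - 1 - s % (q - 1)

/-- The special circle at step `s`. -/
def ci (N q s : ℕ) : ZMod N := (grp q s * q + kk q s : ℕ)

/-- The arrangement of the columns before step `s`. -/
def pp (N q : ℕ) [NeZero N] : ℕ → St N
  | 0 => 1
  | s + 1 => pp N q s * sw (ci N q s)

def S_pi : Prop := ∀ (N n q : ℕ) [NeZero N], N = q * n → 2 ≤ q →
  (∀ s < n * (q - 1), grp q s < n ∧ 1 ≤ kk q s ∧ kk q s < q ∧ ci N q s ≠ 0 ∧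
    (ci N q s).val = grp q s * q + kk q s ∧ (ci N q s - 1).val = grp q s * q + kk q s - 1 ∧
    pp N q s (ci N q s - 1) = ci N q s - 1 ∧
    (pp N q s (ci N q s)).val = grp q s * q + (q - 1)) ∧
  (∀ s ≤ n * (q - 1), ∀ c, (pp N q s c).val =
    if c.val / q < grp q s then (if c.val % q = 0 then c.val + (q - 1) else c.val - 1)
    else if grp q s < c.val / q then c.val else if c.val % q < kk q s then c.val
    else if c.val % q = kk q s then grp q s * q + (q - 1) else c.val - 1) ∧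
  (∀ c, (pp N q (n * (q - 1)) c).val = if c.val % q = 0 then c.val + (q - 1) else c.val - 1) ∧
  2 * ∑ s ∈ range (n * (q - 1)), kk q s = N * (q - 1)

/-- The data of a periodic grid. -/
structure PD (N n q : ℕ) [NeZero n] where
  x : ZMod n → ℤ
  o : ZMod n → ℤ
  l : ℤ
  hN : N = q * n
  hq : 2 ≤ q
  hx : Function.Bijective fun i => (x i : ZMod n)
  ho : Function.Bijective fun i => (o i : ZMod n)
  hxo : ∀ i, |x i - o i| < n
  hl : ∑ i, (x i - o i) = l * n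

namespace PD

variable {N n q : ℕ} [NeZero N] [NeZero n] (D : PD N n q)

def X : ZMod N → ZMod N := up N q D.x
def O : ZMod N → ZMod N := up N q D.o
def Xb : ZMod n → ZMod n := fun i => D.x i
def Ob : ZMod n → ZMod n := fun i => D.o i

def W (c r : ZMod N) : ℤ :=
  pw (D.x (c.val / q : ℕ) + (c.val % q : ℕ) * n) (D.o (c.val / q : ℕ) + (c.val % q : ℕ) * n) r

def Wb (i r : ZMod n) : ℤ := pw (D.x i) (D.o i) r

/-- The height of the switch at step `s`. -/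
def hh (s : ℕ) : ZMod N := (min (D.x (grp q s : ℕ)) (D.o (grp q s : ℕ)) - n : ℤ)

/-- The states fixed by the trace, in the relevant residue class. -/
def fam (π : St n) (c : ZMod N) : ZMod N :=
  (min (D.x (c.val / q : ℕ)) (D.o (c.val / q : ℕ)) -
    (((min (D.x (c.val / q : ℕ)) (D.o (c.val / q : ℕ)) : ℤ) : ZMod n) - π (c.val / q : ℕ)).val +
    (c.val % q + 1 : ℕ) * n : ℤ)

/-- The pentagon count at step `s`. -/
noncomputable def ps (S : Sg N) (s : ℕ) : St N → ZMod N → ZMod N → Rg N :=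
  pent S (D.X ∘ pp N q s) (D.O ∘ pp N q s) (ci N q s) (D.hh s)

end PD

def S_grid : Prop := ∀ (N n q : ℕ) [NeZero N] [NeZero n] (D : PD N n q),
  Function.Bijective D.X ∧ Function.Bijective D.O ∧ Mk D.X D.O D.W ∧ Mk D.Xb D.Ob D.Wb ∧
  (∀ r, ∑ c, D.W c r = -D.l) ∧ (∀ r, ∑ i, D.Wb i r = -D.l) ∧
  (∃ f : ZMod N → ℤ, ∀ p r, wn D.X D.O p r = ∑ c with c.val < p.val, D.W c r + f p) ∧
  (∃ f : ZMod n → ℤ, ∀ p r, wn D.Xb D.Ob p r = ∑ c with c.val < p.val, D.Wb c r + f p)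

def S_pre : Prop := ∀ (N n q : ℕ) [NeZero N] [NeZero n] (D : PD N n q) (c r : ZMod N),
  (D.W c r = if c.val % q =
      (r - (min (D.x (c.val / q : ℕ)) (D.o (c.val / q : ℕ)) : ℤ) - 1).val / n
    then D.Wb (c.val / q : ℕ) (r.val : ZMod n) else 0) ∧
  ∑ c' with c'.val < c.val, D.W c' r =
    ∑ i : ZMod n with i.val < c.val / q, D.Wb i (r.val : ZMod n) +
    if (r - (min (D.x (c.val / q : ℕ)) (D.o (c.val / q : ℕ)) : ℤ) - 1).val / n < c.val % q
    then D.Wb (c.val / q : ℕ) (r.val : ZMod n) else 0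

def S_end : Prop := ∀ (N n q : ℕ) [NeZero N] [NeZero n] (D : PD N n q),
  (∀ c, D.X (pp N q (n * (q - 1)) c) = D.X c - n) ∧
  (∀ c, D.O (pp N q (n * (q - 1)) c) = D.O c - n) ∧
  (∀ c r, D.W (pp N q (n * (q - 1)) c) r = D.W c (r + n)) ∧
  (∀ c, (((pp N q (n * (q - 1)) c).val % q : ℕ) : ZMod q) = (c.val % q : ℕ) - 1) ∧
  ∀ s < n * (q - 1), D.W (pp N q s (ci N q s - 1)) (D.hh s) = 0 ∧
    D.W (pp N q s (ci N q s)) (D.hh s) = 0 ∧
    (D.hh s - D.X (pp N q s (ci N q s)) - 1).val =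
      (D.hh s - D.X (pp N q s (ci N q s - 1)) - 1).val + kk q s * n

def S_eta : Prop := ∀ (N n q : ℕ) [NeZero N] [NeZero n], N = q * n → 2 ≤ q → ∀ S : Sg N,
  IsSign S → ∃ (η : St N → ℤ) (c0 : ℤ), (∀ y, η y = 1 ∨ η y = -1) ∧
    (∀ y i j, i ≠ j → S y i j * η (y * swap i j) = η y * S (sh N n * y) i j) ∧
    (c0 = 1 ∨ c0 = -1) ∧ ∀ (x : St N) (π : St n), sh N n * (x * pp N q (n * (q - 1))) = x →
      (∀ i : ZMod n, ((x (i.val * q : ℕ)).val : ZMod n) = π i) →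
      (Perm.sign x : ℤ) ^ (n * (q - 1) + 1) *
        (∏ s ∈ range (n * (q - 1)), S (x * pp N q s) (ci N q s - 1) (ci N q s)) *
        η (x * pp N q (n * (q - 1))) = c0 * (Perm.sign π : ℤ)

/-! ### Paths -/

section
variable {N : ℕ} [NeZero N]

/-- The states along a path of swaps. -/
def walk (x : St N) (γ : ℕ → ZMod N × ZMod N) : ℕ → St N
  | 0 => x
  | s + 1 => walk x γ s * swap (γ s).1 (γ s).2

/-- The ordered product of the first `m` matrices. -/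
def prodM {I M : Type} [Fintype I] [DecidableEq I] [Semiring M] (P : ℕ → Matrix I I M) :
    ℕ → Matrix I I M
  | 0 => 1
  | s + 1 => prodM P s * P s

/-- A pentagon without any marking. -/
def Good (X O : ZMod N → ZMod N) (i0 h : ZMod N) (x : St N) (i j : ZMod N) : Prop :=
  i ≠ j ∧ (i = i0 ∨ j = i0) ∧ ico (x i) h (x j) ∧
  (∀ c, ico i c j → c ≠ i0 - 1 → c ≠ i0 → ¬ ico (x i) (X c) (x j) ∧ ¬ ico (x i) (O c) (x j)) ∧
  ¬ ico h (X (i0 - 1)) (x j) ∧ ¬ ico h (O (i0 - 1)) (x j) ∧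
  ¬ ico (x i) (X i0) h ∧ ¬ ico (x i) (O i0) h

/-- The height of the pentagon at step `s`. -/
def ht (x : St N) (γ : ℕ → ZMod N × ZMod N) (s : ℕ) : ℕ :=
  (walk x γ s (γ s).2 - walk x γ s (γ s).1).val

/-- The total height over the column `c`. -/
def Ht (x : St N) (γ : ℕ → ZMod N × ZMod N) (m : ℕ) (c : ZMod N) : ℕ :=
  ∑ s ∈ range m, if ico (γ s).1 c (γ s).2 then ht x γ s else 0

/-- The standard path. -/
def g0 (N q : ℕ) (s : ℕ) : ZMod N × ZMod N := (ci N q s - 1, ci N q s)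

theorem walk_g0 (q : ℕ) (x : St N) (s : ℕ) : walk x (g0 N q) s = x * pp N q s := by
  induction s with
  | zero => simp [walk, pp]
  | succ s ih => rw [walk, ih, pp, mul_assoc]; rfl

end

/-- A closed path of unmarked pentagons. -/
def Cl {N n q : ℕ} [NeZero N] [NeZero n] (D : PD N n q) (x : St N)
    (γ : ℕ → ZMod N × ZMod N) : Prop :=
  (∀ s < n * (q - 1), Good (D.X ∘ pp N q s) (D.O ∘ pp N q s) (ci N q s) (D.hh s) (walk x γ s)
    (γ s).1 (γ s).2) ∧ sh N n * walk x γ (n * (q - 1)) = x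

def S_path : Prop := ∀ (N : ℕ) [NeZero N] (t : ℕ → St N → ZMod N → ZMod N → ℚ) (m : ℕ)
  (x y : St N) (γ0 : ℕ → ZMod N × ZMod N),
  (∀ γ, (∀ s < m, t s (walk x γ s) (γ s).1 (γ s).2 ≠ 0) → walk x γ m = y →
    ∀ s < m, γ s = γ0 s) →
  prodM (fun s => mat (t s)) m x y =
    if walk x γ0 m = y then ∏ s ∈ range m, t s (walk x γ0 s) (γ0 s).1 (γ0 s).2 else 0

def S_good : Prop := ∀ (N : ℕ) [NeZero N] (S : Sg N) (X O : ZMod N → ZMod N) (i0 h : ZMod N)
  (x : St N), (∀ i j, MvPolynomial.constantCoeff (pent S X O i0 h x i j) ≠ 0 →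
    Good X O i0 h x i j) ∧
  (Good X O i0 h x (i0 - 1) i0 →
    MvPolynomial.constantCoeff (pent S X O i0 h x (i0 - 1) i0) = S x (i0 - 1) i0)

def S_cls : Prop := ∀ (N n q : ℕ) [NeZero N] [NeZero n], N = q * n → ∀ (x : St N)
  (γ : ℕ → ZMod N × ZMod N), sh N n * walk x γ (n * (q - 1)) = x →
  ∀ s < n * (q - 1), n ∣ ht x γ s

def S_psi : Prop := ∀ (N n q : ℕ) [NeZero N] [NeZero n] (D : PD N n q) (x : St N)
  (γ : ℕ → ZMod N × ZMod N), Cl D x γ → IsCoprime D.l q → (q : ℤ) ∣ pot D.W x →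
  N ∣ Ht x γ (n * (q - 1)) (-1)

def S_area : Prop := ∀ (N n q : ℕ) [NeZero N] [NeZero n] (D : PD N n q) (x : St N)
  (γ : ℕ → ZMod N × ZMod N), Cl D x γ → 2 * ∑ c, Ht x γ (n * (q - 1)) c = N * n * (q - 1)

def S_tight : Prop := ∀ (N n q : ℕ) [NeZero N] [NeZero n], N = q * n → ∀ (x : St N)
  (γ : ℕ → ZMod N × ZMod N) (m : ℕ), sh N n * walk x γ m = x → N ∣ Ht x γ m (-1) →
  2 * ∑ c, Ht x γ m c = N * n * (q - 1) → ∀ c, Ht x γ m c = n * (q - 1 - c.val % q)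

def S_adj : Prop := ∀ (N n q : ℕ) [NeZero N] [NeZero n] (D : PD N n q) (x : St N)
  (γ : ℕ → ZMod N × ZMod N), Cl D x γ →
  (∀ c, Ht x γ (n * (q - 1)) c = n * (q - 1 - c.val % q)) → ∀ s < n * (q - 1), γ s = g0 N q s

def S_back : Prop := ∀ (N n q : ℕ) [NeZero N] [NeZero n] (D : PD N n q) (x : St N),
  Cl D x (g0 N q) → ∃ π : St n, ∀ c, x c = D.fam π c

def S_fam : Prop := ∀ (N n q : ℕ) [NeZero N] [NeZero n] (D : PD N n q) (π : St n),
  Function.Bijective (D.fam π) ∧ ∀ x : St N, (∀ c, x c = D.fam π c) → Cl D x (g0 N q) ∧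
    ∀ i : ZMod n, ((x (i.val * q : ℕ)).val : ZMod n) = π i

def S_famA : Prop := ∀ (N n q : ℕ) [NeZero N] [NeZero n] (D : PD N n q) (π : St n) (x : St N),
  (∀ c, x c = D.fam π c) → pot D.W x = q * pot D.Wb π

/-! ### Assembly of the trace formula -/

def S_key1 : Prop := ∀ (N n q : ℕ) [NeZero N] [NeZero n] (D : PD N n q) (S : Sg N)
  (η : St N → ℤ), SignRel S → (∀ y, η y = 1 ∨ η y = -1) →
  (∀ y i j, i ≠ j → S y i j * η (y * swap i j) = η y * S (sh N n * y) i j) →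
  Thin (pot D.W) (bd S D.X D.O) → ∀ a : ℤ,
  (Eu (pot D.W) a = 0 ∨ Eu (pot D.W) a = 1 ∨ Eu (pot D.W) a = -1) ∧ (Eu (pot D.W) a = 0 →
    ∑ x : St N, ((Perm.sign x : ℤ) : ℚ) ^ (n * (q - 1) + 1) *
      prodM (fun s => mat fun z i j => MvPolynomial.constantCoeff (D.ps S s z i j)) (n * (q - 1))
        x ((sh N n)⁻¹ * x) * (η ((sh N n)⁻¹ * x) : ℚ) * (cinv (sh N n) (pot D.W x - a) : ℚ) = 0)

def S_key : Prop := ∀ (N n q : ℕ) [NeZero N] [NeZero n] (D : PD N n q) (S : Sg N), IsSign S →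
  IsCoprime D.l q → Thin (pot D.W) (bd S D.X D.O) →
  (∀ a : ℤ, Eu (pot D.W) a = 0 ∨ Eu (pot D.W) a = 1 ∨ Eu (pot D.W) a = -1) ∧
  ∀ s : ℤ, Eu (pot D.W) (q * s) = 0 → Eu (pot D.Wb) s = 0

def S_stair : Prop := ∀ (N n q : ℕ) [NeZero N] [NeZero n] (D : PD N n q) (S : Sg N)
  (Δ Δ' : Polynomial ℤ), IsSign S → IsCoprime D.l q → IsAlex D.X D.O Δ → IsAlex D.Xb D.Ob Δ' →
  Thin (gr D.X D.O) (bd S D.X D.O) → Thin (gr D.O D.X) (bd S D.O D.X) → Stair Δ ∧ Stair Δ'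

/-! ### The conditions of Murasugi for grids -/

def S_mur1 : Prop := ∀ (N n q : ℕ) [NeZero N] [NeZero n] (D : PD N n q) (Δ Δ' : Polynomial ℤ),
  IsAlex D.X D.O Δ → IsAlex D.Xb D.Ob Δ' → ∀ z : ℂ, z ≠ 0 → z ≠ 1 →
  Polynomial.aeval z Δ' = 0 → Polynomial.aeval z Δ = 0

def S_circ : Prop := ∀ (K I : Type) [Field K] [Fintype I] [DecidableEq I] (p r q : ℕ)
  [Fact p.Prime] [CharP K p] [NeZero q], q = p ^ r → ∀ E : I → I → ZMod q → K,
  (Matrix.of fun a b : I × ZMod q => E a.1 b.1 (b.2 - a.2)).det =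
    (Matrix.of fun i j : I => ∑ k, E i j k).det ^ q

def S_diff : Prop := ∀ (N : ℕ) [NeZero N] (K : Type) [Field K] (t : K), t ≠ 0 →
  ∀ (g : ZMod N → ZMod N → ℤ) (l : ℤ), (∀ r, ∑ c, g c r = l) →
  (Matrix.of fun c r : ZMod N => t ^ (∑ c' with c'.val < c.val, g c' r) * (t ^ g c r - 1)).det =
    (-1) ^ (N - 1) * (t ^ l - 1) *
      (Matrix.of fun p r : ZMod N => t ^ (∑ c with c.val < p.val, g c r)).det

def S_cong : Prop := ∀ (N n q : ℕ) [NeZero N] [NeZero n] (D : PD N n q) (K : Type) [Field K]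
  (p r : ℕ) [Fact p.Prime] [CharP K p], q = p ^ r → ∀ t : K, t ≠ 0 → ∃ ε : ℤ, (ε = 1 ∨ ε = -1) ∧
  (t ^ (-D.l) - 1) * (Matrix.of fun c r : ZMod N => t ^ (∑ c' with c'.val < c.val, D.W c' r)).det =
    ε * ((t ^ (-D.l) - 1) *
      (Matrix.of fun c r : ZMod n => t ^ (∑ c' with c'.val < c.val, D.Wb c' r)).det) ^ q

def S_mur2 : Prop := ∀ (N n q : ℕ) [NeZero N] [NeZero n] (D : PD N n q) (Δ Δ' : Polynomial ℤ)
  (p r : ℕ) [Fact p.Prime], q = p ^ (r + 1) → D.l ≠ 0 → IsAlex D.X D.O Δ → IsAlex D.Xb D.Ob Δ' →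
  ∃ (a b : ℕ) (ε : ℤ), (ε = 1 ∨ ε = -1) ∧
    Polynomial.X ^ a * ((Polynomial.X - 1) ^ (q - 1) * Δ.map (Int.castRingHom (ZMod p))) =
      (ε : Polynomial (ZMod p)) * Polynomial.X ^ b * Δ'.map (Int.castRingHom (ZMod p)) ^ q *
        (Polynomial.X ^ D.l.natAbs - 1) ^ (q - 1)

def S_main : Prop := ∀ (N n q : ℕ) [NeZero N] [NeZero n] (D : PD N n q) (S : Sg N)
  (Δ Δ' : Polynomial ℤ), IsPrimePow q → IsSign S → IsCoprime D.l q → IsAlex D.X D.O Δ →
  IsAlex D.Xb D.Ob Δ' → Thin (gr D.X D.O) (bd S D.X D.O) → Thin (gr D.O D.X) (bd S D.O D.X) →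
  Δ * ∑ i ∈ range q, Polynomial.X ^ i =
      Polynomial.expand ℤ q Δ' * ∑ j ∈ range q, Polynomial.X ^ (D.l.natAbs * j) ∧
    ∃ s : Multiset ℕ, (∀ d ∈ s, 0 < d) ∧ Δ = (s.map fun d => Polynomial.cyclotomic d ℤ).prod

end Pool.Agent.P.MP_8a22ed_gt.GH
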