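import Pool.Agent.P.MP_8a22ed_gt.GH.St

/-! The first three-term identity for rectangles on three circles. -/

namespace Pool.Agent.P.MP_8a22ed_gt.GH

open Finset Matrix Equiv

namespace Three1

variable {N : ℕ} [NeZero N]

/-- no point over the open interval from `i` to `j` lies between the heights `u` and `v` -/
def Em (x : St N) (i j u v : ZMod N) : Prop := ∀ p, ioo i p j → ¬ ico u (x p) v

theorem ioo_split {a b c : ZMod N} (h : ioo a b c) (p : ZMod N) :
    ioo a p c ↔ ioo a p b ∨ p = b ∨ ioo b p c := by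
  rw [ioo_iff] at h
  simp only [ioo_iff, eq_iff_val]
  omega

theorem ico_split {u v w : ZMod N} (h : ioo u v w) (r : ZMod N) :
    ico u r w ↔ ico u r v ∨ ico v r w := by
  rw [ioo_iff] at h
  simp only [ico_iff]
  omega

theorem em_col {a b c : ZMod N} (h : ioo a b c) (x : St N) (u v : ZMod N) :
    Em x a c u v ↔ Em x a b u v ∧ ¬ ico u (x b) v ∧ Em x b c u v := by
  unfold Em
  simp only [ioo_split h, or_imp, forall_and, forall_eq]

theorem em_row {u v w : ZMod N} (h : ioo u v w) (x : St N) (i j : ZMod N) :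
    Em x i j u w ↔ Em x i j u v ∧ Em x i j v w := by
  unfold Em
  simp only [ico_split h, not_or, imp_and, forall_and]

omit [NeZero N] in
theorem em_swap (x : St N) {i j k l : ZMod N} (hk : ¬ ioo i k j) (hl : ¬ ioo i l j)
    (u v : ZMod N) : Em (x * swap k l) i j u v ↔ Em x i j u v := by
  refine forall_congr' fun p => forall_congr' fun hp => ?_
  rw [Perm.mul_apply, swap_apply_of_ne_of_ne (fun h : p = k => hk (h ▸ hp))
    (fun h : p = l => hl (h ▸ hp))]

variable {B K : Type} [CommRing B] [Ring K] [Algebra B K] (W : Wt N B K)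

/-- the weight of the circles strictly between `i` and `j` -/
noncomputable def M (i j u v : ZMod N) : B := ∏ p with ioo i p j, W.μ p u v

theorem M_col {a b c : ZMod N} (h : ioo a b c) (u v : ZMod N) :
    M W a c u v = M W a b u v * (W.μ b u v * M W b c u v) := by
  have h1 : ¬ ioo b b c := fun h => h.1 rfl
  have h2 : ∀ p, ioo a p b → ¬ (p = b ∨ ioo b p c) := fun p => by
    rw [ioo_iff] at h
    simp only [ioo_iff, eq_iff_val]
    omega
  unfold M
  rw [← prod_insert (s := univ.filter fun p => ioo b p c) (f := fun p => W.μ p u v)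
    (by simpa using h1), ← prod_union (by
      rw [disjoint_left]
      intro p hp
      simpa using h2 p (mem_filter.1 hp).2)]
  congr 1
  ext p
  simp only [ioo_split h, mem_filter, mem_univ, true_and, mem_union, mem_insert]

theorem M_row {u v w : ZMod N} (h : ioo u v w) (i j : ZMod N) :
    M W i j u w = M W i j u v * M W i j v w := by
  unfold M
  rw [← prod_mul_distrib]
  exact prod_congr rfl fun p _ => (W.μμ p u v w h).symm

open Classical in
theorem TT_eq (S : Sg N) (y : St N) {i j u v : ZMod N} (hij : i ≠ j) (hu : y i = u)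
    (hv : y j = v) : TT W S y i j =
      if Em y i j u v then ((S y i j : B) * M W i j u v) • (W.R i u v * W.L j u v) else 0 := by
  subst hu hv
  unfold TT
  refine if_congr ⟨fun h p hp => h.2 p hp.1 hp.2, fun h => ⟨hij, fun p h1 h2 => h p ⟨h1, h2⟩⟩⟩
    rfl rfl

open Classical in
theorem cancel {E1 E2 E3 E4 : Prop} (h : E1 ∧ E2 ↔ E3 ∧ E4) {a b c d : K}
    (h2 : a * b + c * d = 0) :
    (if E1 then a else 0) * (if E2 then b else 0) +
      (if E3 then c else 0) * (if E4 then d else 0) = 0 := by
  by_cases h1 : E1 ∧ E2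
  · rw [if_pos h1.1, if_pos h1.2, if_pos (h.1 h1).1, if_pos (h.1 h1).2, h2]
  · have h3 : ¬ (E3 ∧ E4) := fun h3 => h1 (h.2 h3)
    rw [ite_zero_mul_ite_zero, ite_zero_mul_ite_zero, if_neg h1, if_neg h3, add_zero]

end Three1

open Three1 in
theorem st_three1 : S_three1 := by
  intro N _ B K _ _ _ W S hS x a b c h
  have h' := (ioo_iff a b c).1 h
  have ab : a ≠ b := by rw [Ne, eq_iff_val]; omega
  have ac : a ≠ c := by rw [Ne, eq_iff_val]; omega
  have bc : b ≠ c := by rw [Ne, eq_iff_val]; omega
  have n1 : ∀ i j : ZMod N, ¬ ioo i i j := fun i j h => h.1 rfl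
  have n2 : ∀ i j : ZMod N, ¬ ioo i j j := fun i j => by rw [ioo_iff]; omega
  have n3 : ¬ ioo b a c := by rw [ioo_iff]; omega
  have n4 : ¬ ioo a c b := by rw [ioo_iff]; omega
  obtain ⟨u, hu⟩ : ∃ u, x a = u := ⟨_, rfl⟩
  obtain ⟨v, hv⟩ : ∃ v, x b = v := ⟨_, rfl⟩
  obtain ⟨w, hw⟩ : ∃ w, x c = w := ⟨_, rfl⟩
  have uv : u ≠ v := fun e => ab (x.injective (hu.trans (e.trans hv.symm)))
  have uw : u ≠ w := fun e => ac (x.injective (hu.trans (e.trans hw.symm)))
  have vw : v ≠ w := fun e => bc (x.injective (hv.trans (e.trans hw.symm)))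
  have y1 : (x * swap b c) b = w := by rw [Perm.mul_apply, swap_apply_left, hw]
  rw [TT_eq W S x ab hu hv, TT_eq W S x bc hv hw, TT_eq W S x ac hu hw,
    TT_eq W S (x * swap a b) bc (u := u) (v := w)
      (by rw [Perm.mul_apply, swap_apply_right, hu])
      (by rw [Perm.mul_apply, swap_apply_of_ne_of_ne ac.symm bc.symm, hw]),
    TT_eq W S (x * swap b c) ac (u := u) (v := v)
      (by rw [Perm.mul_apply, swap_apply_of_ne_of_ne ab ac, hu])
      (by rw [Perm.mul_apply, swap_apply_right, hv]),
    TT_eq W S (x * swap a c) ab (u := w) (v := v)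
      (by rw [Perm.mul_apply, swap_apply_left, hw])
      (by rw [Perm.mul_apply, swap_apply_of_ne_of_ne ab.symm bc, hv])]
  have hc : ioo u v w ∨ ioo u w v := by
    rw [Ne, eq_iff_val] at uv uw vw
    simp only [ioo_iff]
    omega
  rcases hc with hc | hc
  · have e0 : ¬ ico u w v := by rw [ioo_iff] at hc; rw [ico_iff]; omega
    rw [if_neg (c := Em x a c u w) (fun e => ((em_col h x u w).1 e).2.1 (hv ▸ hc.2)), zero_mul,
      add_zero]
    refine cancel ?_ ?_
    · rw [em_swap x n3 (n1 _ _), em_col h, em_swap x (n2 _ _) n4, em_swap x (n1 _ _) (n2 _ _), y1,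
        em_row hc x b c]
      tauto
    · have s := congrArg (Int.cast : ℤ → B) (hS.t1 x a b c ab ac bc)
      push_cast at s
      have k1 : W.R a u v * W.L b u v * (W.R b u w * W.L c u w) =
          W.μ b u v • (W.R a u v * (W.R b v w * W.L c u w)) := by
        rw [← W.RR b u v w hc, mul_assoc, mul_assoc, ← mul_assoc (W.L b u v), W.LR b u v uv,
          ← Algebra.smul_def, mul_smul_comm]
      have k2 : W.R b v w * W.L c v w * (W.R a u v * W.L c u v) =
          W.R a u v * (W.R b v w * W.L c u w) := by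
        rw [mul_assoc, ← mul_assoc (W.L c v w), ← W.cRL a c u v v w ac, mul_assoc,
          W.LL c u v w hc, ← mul_assoc, ← W.cRR a b u v v w ab, mul_assoc]
      rw [smul_mul_smul_comm, smul_mul_smul_comm, k1, k2, smul_smul, ← add_smul, M_col W h,
        M_row W hc b c]
      refine (congrArg (· • _) ?_).trans (zero_smul B _)
      linear_combination (M W a b u v * M W b c u v * M W b c v w * W.μ b u v) * s
  · have e0 : ¬ ico u v w := by rw [ioo_iff] at hc; rw [ico_iff]; omega
    rw [if_neg (c := Em (x * swap b c) a c u v)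
      (fun e => ((em_col h _ u v).1 e).2.1 (y1 ▸ hc.2)), mul_zero, add_zero]
    refine cancel ?_ ?_
    · rw [em_swap x n3 (n1 _ _), em_col h, em_swap x (n1 _ _) n4, hv, em_row hc x a b]
      tauto
    · have s := congrArg (Int.cast : ℤ → B) (hS.t2 x a b c ab ac bc)
      push_cast at s
      have k1 : W.R a u v * W.L b u v * (W.R b u w * W.L c u w) =
          W.μ b u w • (W.R a u v * (W.L b w v * W.L c u w)) := by
        rw [← W.LL b u w v hc, mul_assoc, mul_assoc, ← mul_assoc (W.L b u w), W.LR b u w uw,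
          ← Algebra.smul_def, mul_smul_comm, mul_smul_comm]
      have k2 : W.R a u w * W.L c u w * (W.R a w v * W.L b w v) =
          W.R a u v * (W.L b w v * W.L c u w) := by
        rw [mul_assoc, ← mul_assoc (W.L c u w), ← W.cRL a c w v u w ac, mul_assoc,
          ← W.cLL b c w v u w bc, ← mul_assoc, W.RR a u w v hc]
      rw [smul_mul_smul_comm, smul_mul_smul_comm, k1, k2, smul_smul, ← add_smul, M_col W h,
        M_row W hc a b]
      refine (congrArg (· • _) ?_).trans (zero_smul B _)
      linear_combination (M W a b u w * M W a b w v * M W b c u w * W.μ b u w) * s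

end Pool.Agent.P.MP_8a22ed_gt.GH
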