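import Pool.Agent.P.MP_8a22ed_gt.GH.St

/-! The second three-term identity for two rectangles on three circles. -/

namespace Pool.Agent.P.MP_8a22ed_gt.GH

open Finset Matrix Equiv

namespace Three2

variable {N : ℕ} [NeZero N]

theorem ioo_split {a b c : ZMod N} (h : ioo a b c) (p : ZMod N) :
    ioo a p c ↔ ioo a p b ∨ p = b ∨ ioo b p c := by
  simp only [ioo_iff, eq_iff_val] at h ⊢
  omega

theorem ico_split {a b c : ZMod N} (h : ioo a b c) (p : ZMod N) :
    ico a p c ↔ ico a p b ∨ ico b p c := by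
  simp only [ioo_iff, ico_iff] at h ⊢
  omega

theorem ne_left {a b c p : ZMod N} (h : ioo a b c) (g : ioo a p b) : p ≠ a ∧ p ≠ b ∧ p ≠ c := by
  simp only [ioo_iff, Ne, eq_iff_val] at h g ⊢
  omega

theorem ne_right {a b c p : ZMod N} (h : ioo a b c) (g : ioo b p c) : p ≠ a ∧ p ≠ b ∧ p ≠ c := by
  simp only [ioo_iff, Ne, eq_iff_val] at h g ⊢
  omega

theorem ne3 {a b c : ZMod N} (h : ioo a b c) : a ≠ b ∧ a ≠ c ∧ b ≠ c := by
  simp only [ioo_iff, Ne, eq_iff_val] at h ⊢
  omega

theorem tri {a b c : ZMod N} (h1 : a ≠ b) (h2 : a ≠ c) (h3 : b ≠ c) : ioo a b c ∨ ioo b a c := by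
  simp only [ioo_iff, Ne, eq_iff_val] at h1 h2 h3 ⊢
  omega

theorem not_ico {a b c : ZMod N} (h : ioo a b c) : ¬ ico b a c := by
  simp only [ioo_iff, ico_iff] at h ⊢
  omega

theorem prod_split {B : Type} [CommRing B] {a b c : ZMod N} (h : ioo a b c) (f : ZMod N → B) :
    ∏ p with ioo a p c, f p = (∏ p with ioo a p b, f p) * (f b * ∏ p with ioo b p c, f p) := by
  have h1 : b ∉ univ.filter fun p => ioo b p c := fun g => (mem_filter.1 g).2.1 rfl
  rw [← prod_insert h1, ← prod_union]
  · refine prod_congr ?_ fun _ _ => rfl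
    ext p
    simp only [mem_filter, mem_univ, true_and, mem_union, mem_insert, ioo_split h p]
  · rw [disjoint_left]
    intro p g1 g2
    simp only [mem_filter, mem_univ, true_and, mem_insert, ioo_iff, eq_iff_val] at h g1 g2
    omega

/-- no point of `x` strictly between the circles and between the heights -/
def E (x : St N) (i j u v : ZMod N) : Prop := ∀ p, ioo i p j → ¬ ico u (x p) v

theorem E_cols {a b c : ZMod N} (h : ioo a b c) (x : St N) (u v : ZMod N) :
    E x a c u v ↔ E x a b u v ∧ ¬ ico u (x b) v ∧ E x b c u v := by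
  simp only [E, ioo_split h, or_imp, forall_and, forall_eq]

theorem E_rows {u v w : ZMod N} (h : ioo u v w) (x : St N) (i j : ZMod N) :
    E x i j u w ↔ E x i j u v ∧ E x i j v w := by
  simp only [E, ico_split h, not_or, imp_and, forall_and]

omit [NeZero N] in
theorem E_swap {x : St N} {i j k l u v : ZMod N} (h : ∀ p, ioo i p j → p ≠ k ∧ p ≠ l) :
    E (x * swap k l) i j u v ↔ E x i j u v :=
  forall_congr' fun p => forall_congr' fun g => by
    rw [Perm.mul_apply, swap_apply_of_ne_of_ne (h p g).1 (h p g).2]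

variable {B K : Type} [CommRing B] [Ring K] [Algebra B K] (W : Wt N B K) (S : Sg N)

theorem TT_pos {x : St N} {i j u v : ZMod N} (hij : i ≠ j) (hu : x i = u) (hv : x j = v)
    (h : E x i j u v) : TT W S x i j =
      ((S x i j : B) * ∏ p with ioo i p j, W.μ p u v) • (W.R i u v * W.L j u v) := by
  subst hu hv
  exact if_pos ⟨hij, fun p h1 h2 => h p ⟨h1, h2⟩⟩

theorem TT_neg {x : St N} {i j u v : ZMod N} (hu : x i = u) (hv : x j = v)
    (h : ¬ E x i j u v) : TT W S x i j = 0 := by
  subst hu hv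
  exact if_neg fun g => h fun p h1 => g.2 p h1.1 h1.2

omit [NeZero N] in
theorem prod_rows {u v w : ZMod N} (h : ioo u v w) (s : Finset (ZMod N)) :
    ∏ p ∈ s, W.μ p u w = (∏ p ∈ s, W.μ p u v) * ∏ p ∈ s, W.μ p v w := by
  rw [← prod_mul_distrib]
  exact prod_congr rfl fun p _ => (W.μμ p u v w h).symm

omit [NeZero N] in
theorem alg1 {a b c u v w : ZMod N} (h1 : a ≠ b) (h2 : a ≠ c) (h3 : b ≠ c) (h : ioo u v w)
    (h4 : v ≠ w) : W.R b v w * W.L c v w * (W.R a u w * W.L b u w) =
      W.μ b v w • (W.R a u v * W.L b u v * (W.R a v w * W.L c v w)) := by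
  calc _ = W.R b v w * (W.L c v w * W.R a u w) * W.L b u w := by simp only [mul_assoc]
    _ = W.R b v w * W.R a u w * (W.L c v w * W.L b u w) := by
        rw [← W.cRL a c u w v w h2]; simp only [mul_assoc]
    _ = W.R a u w * (W.R b v w * W.L b v w) * (W.L b u v * W.L c v w) := by
        rw [← W.cRR a b u w v w h1, ← W.cLL b c u w v w h3, ← W.LL b u v w h]
        simp only [mul_assoc]
    _ = W.μ b v w • (W.R a u v * (W.R a v w * W.L b u v) * W.L c v w) := by
        rw [W.RL b v w h4, ← W.RR a u v w h, ← Algebra.commutes, Algebra.smul_def]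
        simp only [mul_assoc]
    _ = _ := by rw [W.cRL a b v w u v h1]; simp only [mul_assoc]

omit [NeZero N] in
theorem alg2 {a b c u v w : ZMod N} (h1 : a ≠ b) (h2 : a ≠ c) (h3 : b ≠ c) (h : ioo v u w)
    (h4 : u ≠ w) : W.R b v w * W.L c v w * (W.R a u w * W.L b u w) =
      W.μ b u w • (W.R a u w * W.L c u w * (W.R b v u * W.L c v u)) := by
  calc _ = W.R b v w * (W.L c v w * W.R a u w) * W.L b u w := by simp only [mul_assoc]
    _ = W.R b v w * W.R a u w * (W.L c v w * W.L b u w) := by
        rw [← W.cRL a c u w v w h2]; simp only [mul_assoc]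
    _ = W.R a u w * W.R b v u * (W.R b u w * W.L b u w) * (W.L c u w * W.L c v u) := by
        rw [← W.cRR a b u w v w h1, ← W.cLL b c u w v w h3, ← W.LL c v u w h, ← W.RR b v u w h]
        simp only [mul_assoc]
    _ = W.μ b u w • (W.R a u w * (W.R b v u * W.L c u w) * W.L c v u) := by
        rw [W.RL b u w h4, ← Algebra.commutes, Algebra.smul_def]
        simp only [mul_assoc]
    _ = _ := by rw [W.cRL b c v u u w h3]; simp only [mul_assoc]

end Three2

open Three2 in
theorem st_three2 : S_three2 := by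
  intro N _ B K _ _ _ W S hS x a b c h
  obtain ⟨h1, h2, h3⟩ := ne3 h
  have e1 : (x * swap a b) a = x b := by simp
  have e2 : (x * swap a b) b = x a := by simp
  have e3 : (x * swap a b) c = x c := by
    rw [Perm.mul_apply, swap_apply_of_ne_of_ne h2.symm h3.symm]
  have e4 : (x * swap b c) a = x a := by rw [Perm.mul_apply, swap_apply_of_ne_of_ne h1 h2]
  have e5 : (x * swap b c) b = x c := by simp
  have e6 : (x * swap a c) b = x b := by rw [Perm.mul_apply, swap_apply_of_ne_of_ne h1.symm h3]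
  have e7 : (x * swap a c) c = x a := by simp
  have s1 : ∀ u v, E (x * swap a b) a b u v ↔ E x a b u v := fun u v =>
    E_swap fun p g => ⟨(ne_left h g).1, (ne_left h g).2.1⟩
  have s2 : ∀ u v, E (x * swap a b) b c u v ↔ E x b c u v := fun u v =>
    E_swap fun p g => ⟨(ne_right h g).1, (ne_right h g).2.1⟩
  have s3 : ∀ u v, E (x * swap b c) a b u v ↔ E x a b u v := fun u v =>
    E_swap fun p g => (ne_left h g).2
  have s4 : ∀ u v, E (x * swap a c) b c u v ↔ E x b c u v := fun u v =>
    E_swap fun p g => ⟨(ne_right h g).1, (ne_right h g).2.2⟩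
  rcases tri (x.injective.ne h1) (x.injective.ne h2) (x.injective.ne h3) with g | g
  · rw [TT_neg W S (i := a) (j := c) rfl rfl fun k => ((E_cols h x _ _).1 k).2.1 g.2, zero_mul,
      add_zero]
    by_cases q1 : E x b c (x b) (x c)
    · by_cases q2 : E x a b (x a) (x c)
      · obtain ⟨q3, q4⟩ := (E_rows g x a b).1 q2
        have t : (S x a b : B) * (S (x * swap a b) a c : B) =
            -((S x b c : B) * (S (x * swap b c) a b : B)) := by
          exact_mod_cast congrArg (Int.cast : ℤ → B) (hS.t3 x a b c h1 h2 h3)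
        rw [TT_pos W S h1 rfl rfl q3, TT_pos W S h2 e1 e3 ((E_cols h _ _ _).2
            ⟨(s1 _ _).2 q4, by rw [e2]; exact not_ico g, (s2 _ _).2 q1⟩),
          TT_pos W S h3 rfl rfl q1, TT_pos W S h1 e4 e5 ((s3 _ _).2 q2), smul_mul_smul_comm,
          smul_mul_smul_comm, alg1 W h1 h2 h3 g (x.injective.ne h3), smul_smul, ← add_smul,
          prod_split h, prod_rows W g]
        refine smul_eq_zero_of_left ?_ _
        linear_combination ((∏ p with ioo a p b, W.μ p (x a) (x b)) *
          (∏ p with ioo a p b, W.μ p (x b) (x c)) * W.μ b (x b) (x c) *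
          ∏ p with ioo b p c, W.μ p (x b) (x c)) * t
      · rw [TT_neg W S e4 e5 fun k => q2 ((s3 _ _).1 k), mul_zero, add_zero]
        by_cases q3 : E x a b (x a) (x b)
        · rw [TT_neg W S e1 e3 fun k => q2 ((E_rows g x a b).2
            ⟨q3, (s1 _ _).1 ((E_cols h _ _ _).1 k).1⟩), mul_zero]
        · rw [TT_neg W S rfl rfl q3, zero_mul]
    · rw [TT_neg W S rfl rfl q1, TT_neg W S e1 e3 fun k =>
        q1 ((s2 _ _).1 ((E_cols h _ _ _).1 k).2.2), mul_zero, zero_mul, add_zero]
  · rw [TT_neg W S e1 e3 fun k => ((E_cols h _ _ _).1 k).2.1 (by rw [e2]; exact g.2), mul_zero,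
      zero_add]
    by_cases q1 : E x a b (x a) (x c)
    · by_cases q2 : E x b c (x b) (x c)
      · obtain ⟨q3, q4⟩ := (E_rows g x b c).1 q2
        have t : (S x b c : B) * (S (x * swap b c) a b : B) =
            -((S x a c : B) * (S (x * swap a c) b c : B)) := by
          exact_mod_cast congrArg (Int.cast : ℤ → B) (hS.t4 x a b c h1 h2 h3)
        rw [TT_pos W S h3 rfl rfl q2, TT_pos W S h1 e4 e5 ((s3 _ _).2 q1),
          TT_pos W S h2 rfl rfl ((E_cols h _ _ _).2 ⟨q1, not_ico g, q4⟩),
          TT_pos W S h3 e6 e7 ((s4 _ _).2 q3), smul_mul_smul_comm,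
          smul_mul_smul_comm, alg2 W h1 h2 h3 g (x.injective.ne h2), smul_smul, ← add_smul,
          prod_split h, prod_rows W g]
        refine smul_eq_zero_of_left ?_ _
        linear_combination ((∏ p with ioo a p b, W.μ p (x a) (x c)) *
          (∏ p with ioo b p c, W.μ p (x b) (x a)) * W.μ b (x a) (x c) *
          ∏ p with ioo b p c, W.μ p (x a) (x c)) * t
      · rw [TT_neg W S rfl rfl q2, zero_mul, zero_add]
        by_cases q3 : E x b c (x b) (x a)
        · rw [TT_neg W S (i := a) (j := c) rfl rfl fun k => q2 ((E_rows g x b c).2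
            ⟨q3, ((E_cols h _ _ _).1 k).2.2⟩), zero_mul]
        · rw [TT_neg W S e6 e7 fun k => q3 ((s4 _ _).1 k), mul_zero]
    · rw [TT_neg W S e4 e5 fun k => q1 ((s3 _ _).1 k), TT_neg W S (i := a) (j := c) rfl rfl
        fun k => q1 ((E_cols h _ _ _).1 k).1, mul_zero, zero_mul, add_zero]

end Pool.Agent.P.MP_8a22ed_gt.GH
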