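import Pool.Agent.P.MP_8a22ed_gt.GH.St

/-! The heights over the columns are as small as possible. -/

namespace Pool.Agent.P.MP_8a22ed_gt.GH

open Finset Equiv

namespace Tight

variable {N : ℕ} [NeZero N]

theorem pred {i j : ZMod N} (h : i ≠ j) (c : ZMod N) :
    (c = i → ico i c j ∧ ¬ ico i (c - 1) j) ∧ (c = j → ¬ ico i c j ∧ ico i (c - 1) j) ∧
      (c ≠ i → c ≠ j → (ico i c j ↔ ico i (c - 1) j)) := by
  have hi := ZMod.val_lt i
  have hj := ZMod.val_lt j
  have hc := ZMod.val_lt c
  rw [Ne, eq_iff_val] at h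
  have : Fact (1 < N) := ⟨by omega⟩
  have h1 := val_sub_ite 1 c
  rw [ZMod.val_one] at h1
  simp only [Ne, eq_iff_val, ico_iff]
  split_ifs at h1 <;> omega

theorem tele (x : St N) (γ : ℕ → ZMod N × ZMod N) (c : ZMod N) (m : ℕ) :
    (Ht x γ m c : ZMod N) - Ht x γ m (c - 1) = walk x γ m c - x c := by
  induction m with
  | zero => simp [Ht, walk]
  | succ s ih =>
    unfold Ht at ih ⊢
    rw [sum_range_succ, sum_range_succ, Nat.cast_add, Nat.cast_add, add_sub_add_comm, ih, walk, ht,
      Perm.mul_apply]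
    generalize walk x γ s = y, (γ s).1 = i, (γ s).2 = j
    rcases eq_or_ne i j with rfl | h
    · simp
    obtain ⟨h1, h2, h3⟩ := pred h c
    rcases eq_or_ne c i with rfl | e1
    · simp [(h1 rfl).1, (h1 rfl).2]
    rcases eq_or_ne c j with rfl | e2
    · simp [(h2 rfl).1, (h2 rfl).2]
    · simp [h3 e1 e2, swap_apply_of_ne_of_ne e1 e2]

theorem sum_val (g : ℕ → ℕ) : ∑ c : ZMod N, g c.val = ∑ v ∈ range N, g v := by
  obtain ⟨M, rfl⟩ := Nat.exists_eq_succ_of_ne_zero (NeZero.ne N)
  exact Fin.sum_univ_eq_sum_range g (M + 1)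

theorem sum_mod (q n : ℕ) (f : ℕ → ℕ) :
    ∑ v ∈ range (q * n), f (v % q) = n * ∑ k ∈ range q, f k := by
  induction n with
  | zero => simp
  | succ n ih =>
    rw [Nat.mul_succ, sum_range_add, ih, Nat.succ_mul]
    congr 1
    exact sum_congr rfl fun k hk => by rw [Nat.mul_add_mod, Nat.mod_eq_of_lt (mem_range.1 hk)]

end Tight

open Tight in
theorem st_tight : S_tight := by
  intro N n q _ _ hN x γ m hc h0 hs
  have n0 := Nat.pos_of_ne_zero (NeZero.ne n)
  have q0 : 0 < q := Nat.pos_of_ne_zero fun e => NeZero.ne N (by rw [hN, e, zero_mul])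
  have hq : (q : ZMod N) * n = 0 := by rw [← Nat.cast_mul, ← hN, ZMod.natCast_self]
  have st : ∀ c, (Ht x γ m c : ZMod N) = Ht x γ m (c - 1) - n := fun c => by
    have h1 := congrArg (fun z : St N => z c) hc
    simp only [sh, Perm.mul_apply, coe_addRight] at h1
    linear_combination tele x γ c m + h1
  have ind : ∀ k : ℕ, (Ht x γ m ((k : ZMod N) - 1) : ZMod N) = -(k * n) := fun k => by
    induction k with
    | zero => simpa using (ZMod.natCast_eq_zero_iff _ _).2 h0
    | succ k ih => rw [Nat.cast_succ, add_sub_cancel_right, st, ih]; ring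
  have le : ∀ c : ZMod N, n * (q - 1 - c.val % q) ≤ Ht x γ m c := fun c => by
    have e1 := Nat.mod_lt c.val q0
    have e2 : ((n * (q - 1 - c.val % q) : ℕ) : ZMod N) = Ht x γ m c := by
      have e3 := congrArg (Nat.cast : ℕ → ZMod N) (Nat.div_add_mod c.val q)
      have e4 := congrArg (Nat.cast : ℕ → ZMod N)
        (show q - 1 - c.val % q + c.val % q + 1 = q by omega)
      have e5 := ind c.val
      rw [st]
      simp only [Nat.cast_add, Nat.cast_mul, Nat.cast_one, ZMod.natCast_zmod_val] at e3 e4 e5 ⊢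
      linear_combination n * e4 - e5 - n * e3 + (1 + ((c.val / q : ℕ) : ZMod N)) * hq
    have e3 : n * (q - 1 - c.val % q) < N := by
      calc _ < n * q := Nat.mul_lt_mul_of_pos_left (by omega) n0
        _ = N := by rw [hN, mul_comm]
    rw [← Nat.mod_eq_of_lt e3, (ZMod.natCast_eq_natCast_iff' _ _ _).1 e2]
    exact Nat.mod_le _ _
  refine fun c => ((sum_eq_sum_iff_of_le fun c _ => le c).1 ?_ c (mem_univ c)).symm
  refine Nat.eq_of_mul_eq_mul_left two_pos (Eq.trans ?_ hs.symm)
  rw [sum_val fun v => n * (q - 1 - v % q), hN, sum_mod q n fun k => n * (q - 1 - k), ← mul_sum,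
    sum_range_reflect (fun k => k) q]
  linear_combination n * n * sum_range_id_mul_two q

end Pool.Agent.P.MP_8a22ed_gt.GH
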